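import Mathlib

/-!
# Degree filtration on functions on the Boolean cube `ι → Bool`
-/

namespace H87AM

open Finset

/-- The sign of a bit: `true ↦ 1`, `false ↦ -1`. -/
def sg (b : Bool) : ℝ := if b then 1 else -1

@[simp] lemma sg_true : sg true = 1 := rfl
@[simp] lemma sg_false : sg false = -1 := rfl

lemma sg_mul_self (b : Bool) : sg b * sg b = 1 := by cases b <;> simp

lemma sg_sq (b : Bool) : sg b ^ 2 = 1 := by cases b <;> simp

/-- The character (parity monomial) of `S`. -/
def chi {ι : Type*} (S : Finset ι) (x : ι → Bool) : ℝ := ∏ i ∈ S, sg (x i)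

@[simp] lemma chi_empty {ι : Type*} : chi (∅ : Finset ι) = 1 := by
  funext x; simp [chi]

lemma chi_mul {ι : Type*} [DecidableEq ι] (S T : Finset ι) :
    chi S * chi T = chi (symmDiff S T) := by
  funext x
  simp only [Pi.mul_apply, chi]
  have h1 : ∏ i ∈ S, sg (x i) = (∏ i ∈ S \ T, sg (x i)) * ∏ i ∈ S ∩ T, sg (x i) := by
    rw [← Finset.prod_union (Finset.disjoint_sdiff_inter S T), Finset.sdiff_union_inter]
  have h2 : ∏ i ∈ T, sg (x i) = (∏ i ∈ T \ S, sg (x i)) * ∏ i ∈ S ∩ T, sg (x i) := by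
    rw [Finset.inter_comm, ← Finset.prod_union (Finset.disjoint_sdiff_inter T S),
      Finset.sdiff_union_inter]
  have h3 : (∏ i ∈ S ∩ T, sg (x i)) * (∏ i ∈ S ∩ T, sg (x i)) = 1 := by
    rw [← Finset.prod_mul_distrib]
    exact Finset.prod_eq_one fun i _ => sg_mul_self _
  have h4 : symmDiff S T = (S \ T) ∪ (T \ S) := rfl
  rw [h4, Finset.prod_union (by
    rw [Finset.disjoint_left]; intro a ha hb
    simp only [Finset.mem_sdiff] at ha hb; exact hb.2 ha.1), h1, h2]
  calc _ = (∏ i ∈ S \ T, sg (x i)) * (∏ i ∈ T \ S, sg (x i)) *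
        ((∏ i ∈ S ∩ T, sg (x i)) * (∏ i ∈ S ∩ T, sg (x i))) := by ring
    _ = _ := by rw [h3, mul_one]

/-- Functions on the cube that are combinations of parity monomials of size at most `d`. -/
def Deg (ι : Type*) (d : ℕ) : Submodule ℝ ((ι → Bool) → ℝ) :=
  Submodule.span ℝ (chi '' {S : Finset ι | S.card ≤ d})

variable {ι κ : Type*}

lemma chi_mem {S : Finset ι} {d : ℕ} (h : S.card ≤ d) : chi S ∈ Deg ι d :=
  Submodule.subset_span ⟨S, h, rfl⟩

lemma Deg.mono {d e : ℕ} (h : d ≤ e) : Deg ι d ≤ Deg ι e := by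
  apply Submodule.span_mono
  rintro _ ⟨S, hS, rfl⟩
  exact ⟨S, le_trans hS h, rfl⟩

lemma Deg.mono' {d e : ℕ} (h : d ≤ e) {f : (ι → Bool) → ℝ} (hf : f ∈ Deg ι d) : f ∈ Deg ι e :=
  Deg.mono h hf

lemma Deg.one_mem (d : ℕ) : (1 : (ι → Bool) → ℝ) ∈ Deg ι d := by
  rw [← chi_empty]; exact chi_mem (by simp)

lemma Deg.const_mem (d : ℕ) (c : ℝ) : (fun _ : ι → Bool => c) ∈ Deg ι d := by
  have : (fun _ : ι → Bool => c) = c • (1 : (ι → Bool) → ℝ) := by funext x; simp
  rw [this]; exact Submodule.smul_mem _ _ (Deg.one_mem d)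

lemma Deg.mul_mem {d e : ℕ} {f g : (ι → Bool) → ℝ} (hf : f ∈ Deg ι d) (hg : g ∈ Deg ι e) :
    f * g ∈ Deg ι (d + e) := by
  classical
  have h : Deg ι d * Deg ι e ≤ Deg ι (d + e) := by
    unfold Deg
    rw [Submodule.span_mul_span]
    apply Submodule.span_le.2
    rintro _ ⟨_, ⟨S, hS, rfl⟩, _, ⟨T, hT, rfl⟩, rfl⟩
    simp only [Set.mem_ofPred_eq] at hS hT
    show chi S * chi T ∈ _
    rw [chi_mul]
    apply Submodule.subset_span
    refine ⟨symmDiff S T, ?_, rfl⟩
    simp only [Set.mem_ofPred_eq]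
    calc (symmDiff S T).card ≤ (S ∪ T).card :=
          Finset.card_le_card (by
            intro a ha
            rw [Finset.mem_symmDiff] at ha
            rw [Finset.mem_union]; tauto)
      _ ≤ S.card + T.card := Finset.card_union_le _ _
      _ ≤ d + e := by omega
  exact h (Submodule.mul_mem_mul hf hg)

lemma Deg.mul_mem' {d e : ℕ} {f g : (ι → Bool) → ℝ} (hf : f ∈ Deg ι d) (hg : g ∈ Deg ι e) :
    (fun x => f x * g x) ∈ Deg ι (d + e) := Deg.mul_mem hf hg

lemma Deg.add_mem' {d : ℕ} {f g : (ι → Bool) → ℝ} (hf : f ∈ Deg ι d) (hg : g ∈ Deg ι d) :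
    (fun x => f x + g x) ∈ Deg ι d := Submodule.add_mem _ hf hg

lemma Deg.sub_mem' {d : ℕ} {f g : (ι → Bool) → ℝ} (hf : f ∈ Deg ι d) (hg : g ∈ Deg ι d) :
    (fun x => f x - g x) ∈ Deg ι d := Submodule.sub_mem _ hf hg

lemma Deg.smul_mem' {d : ℕ} (c : ℝ) {f : (ι → Bool) → ℝ} (hf : f ∈ Deg ι d) :
    (fun x => c * f x) ∈ Deg ι d := Submodule.smul_mem _ c hf

lemma Deg.sum_mem' {α : Type*} (s : Finset α) {d : ℕ} {f : α → (ι → Bool) → ℝ}
    (hf : ∀ a ∈ s, f a ∈ Deg ι d) : (fun x => ∑ a ∈ s, f a x) ∈ Deg ι d := by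
  have : (fun x => ∑ a ∈ s, f a x) = ∑ a ∈ s, f a := by funext x; simp
  rw [this]; exact Submodule.sum_mem _ hf

lemma Deg.prod_mem' {α : Type*} (s : Finset α) {d : ℕ} {f : α → (ι → Bool) → ℝ}
    (hf : ∀ a ∈ s, f a ∈ Deg ι d) : (fun x => ∏ a ∈ s, f a x) ∈ Deg ι (s.card * d) := by
  classical
  induction s using Finset.induction_on with
  | empty => simpa using Deg.const_mem 0 1
  | insert a s ha ih =>
    have h1 : f a ∈ Deg ι d := hf a (Finset.mem_insert_self _ _)
    have h2 := ih (fun b hb => hf b (Finset.mem_insert_of_mem hb))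
    have h3 := Deg.mul_mem' h1 h2
    simp only [Finset.prod_insert ha, Finset.card_insert_of_notMem ha]
    exact Deg.mono' (by ring_nf; omega) h3

lemma Deg.pow_mem' {d : ℕ} {f : (ι → Bool) → ℝ} (hf : f ∈ Deg ι d) (k : ℕ) :
    (fun x => f x ^ k) ∈ Deg ι (k * d) := by
  have := Deg.prod_mem' (Finset.range k) (f := fun _ => f) (fun _ _ => hf)
  simpa using this

lemma Deg.coord_mem (i : ι) : (fun x : ι → Bool => sg (x i)) ∈ Deg ι 1 := by
  have : (fun x : ι → Bool => sg (x i)) = chi {i} := by funext x; simp [chi]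
  rw [this]; exact chi_mem (by simp)

/-- A polynomial of degree `≤ D` in a function of degree `≤ d` has degree `≤ D * d`. -/
lemma Deg.polyEval_mem {d D : ℕ} {f : (ι → Bool) → ℝ} (hf : f ∈ Deg ι d)
    (Q : Polynomial ℝ) (hQ : Q.natDegree ≤ D) : (fun x => Q.eval (f x)) ∈ Deg ι (D * d) := by
  have : (fun x => Q.eval (f x)) =
      fun x => ∑ k ∈ Finset.range (Q.natDegree + 1), Q.coeff k * f x ^ k := by
    funext x; rw [Polynomial.eval_eq_sum_range]
  rw [this]
  apply Deg.sum_mem'
  intro k hk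
  apply Deg.smul_mem'
  refine Deg.mono' ?_ (Deg.pow_mem' hf k)
  have : k ≤ D := by rw [Finset.mem_range] at hk; omega
  exact Nat.mul_le_mul_right _ this

/-- Composition with Boolean functions of bounded degree. -/
lemma Deg.comp_mem {D d : ℕ} {f : (κ → Bool) → ℝ} (hf : f ∈ Deg κ D)
    (g : (ι → Bool) → κ → Bool) (hg : ∀ k, (fun x => sg (g x k)) ∈ Deg ι d) :
    (fun x => f (g x)) ∈ Deg ι (D * d) := by
  unfold Deg at hf
  induction hf using Submodule.span_induction with
  | mem f hf =>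
    obtain ⟨S, hS, rfl⟩ := hf
    simp only [Set.mem_ofPred_eq] at hS
    have h := Deg.prod_mem' S (f := fun k x => sg (g x k)) (fun k _ => hg k)
    exact Deg.mono' (Nat.mul_le_mul_right _ hS) h
  | zero => exact Submodule.zero_mem _
  | add f₁ f₂ _ _ h₁ h₂ => exact Deg.add_mem' h₁ h₂
  | smul c f _ h => exact Deg.smul_mem' c h

/-- Variable substitution does not increase the degree. -/
lemma Deg.subst_mem {D : ℕ} {f : (κ → Bool) → ℝ} (hf : f ∈ Deg κ D) (φ : κ → ι) :
    (fun x : ι → Bool => f (fun k => x (φ k))) ∈ Deg ι D := by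
  have := Deg.comp_mem (d := 1) hf (fun (x : ι → Bool) k => x (φ k)) (fun k => Deg.coord_mem (φ k))
  simpa using this

/-- The indicator of a point has degree at most the number of variables. -/
lemma Deg.point_mem [Fintype ι] [DecidableEq ι] (a : ι → Bool) :
    (fun x : ι → Bool => if x = a then (1:ℝ) else 0) ∈ Deg ι (Fintype.card ι) := by
  have h : (fun x : ι → Bool => if x = a then (1:ℝ) else 0) =
      fun x => ∏ i, ((1 + sg (a i) * sg (x i)) / 2) := by
    funext x
    by_cases hx : x = a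
    · subst hx
      simp [sg_mul_self]
    · simp only [hx, if_false]
      obtain ⟨i, hi⟩ : ∃ i, x i ≠ a i := by
        by_contra hcon; push Not at hcon; exact hx (funext hcon)
      symm
      apply Finset.prod_eq_zero (Finset.mem_univ i)
      cases h1 : x i <;> cases h2 : a i <;> simp_all
  rw [h]
  have := Deg.prod_mem' (Finset.univ : Finset ι) (d := 1)
    (f := fun i (x : ι → Bool) => (1 + sg (a i) * sg (x i)) / 2) (fun i _ => by
      have h1 := Deg.add_mem' (Deg.const_mem 1 (1/2 : ℝ))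
        (Deg.smul_mem' (sg (a i) / 2) (Deg.coord_mem i))
      have h2 : (fun x : ι → Bool => (1 + sg (a i) * sg (x i)) / 2) =
          fun x => 1/2 + sg (a i) / 2 * sg (x i) := by funext x; ring
      rw [h2]; exact h1)
  simpa using this

lemma Deg.mem_card [Fintype ι] (f : (ι → Bool) → ℝ) : f ∈ Deg ι (Fintype.card ι) := by
  classical
  have h : f = fun x => ∑ a : ι → Bool, f a * (if x = a then (1:ℝ) else 0) := by
    funext x; simp
  rw [h]
  apply Deg.sum_mem'
  intro a _
  exact Deg.smul_mem' _ (Deg.point_mem a)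

/-- The product (independent rounding) weight of `y` for the marginals `P`. -/
noncomputable def pw [Fintype κ] (P : κ → ℝ) (y : κ → Bool) : ℝ :=
  ∏ k, (if y k then P k else 1 - P k)

lemma pw_nonneg [Fintype κ] {P : κ → ℝ} (h0 : ∀ k, 0 ≤ P k) (h1 : ∀ k, P k ≤ 1) (y : κ → Bool) :
    0 ≤ pw P y := by
  apply Finset.prod_nonneg
  intro k _
  split_ifs
  · exact h0 k
  · linarith [h1 k]

lemma sum_pw_prod [Fintype κ] [DecidableEq κ] (P : κ → ℝ) (F : κ → Bool → ℝ) :
    ∑ y : κ → Bool, (∏ k, F k (y k)) * pw P y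
      = ∏ k, (F k true * P k + F k false * (1 - P k)) := by
  have : ∀ y : κ → Bool, (∏ k, F k (y k)) * pw P y
      = ∏ k, (F k (y k) * (if y k then P k else 1 - P k)) := by
    intro y; rw [pw, ← Finset.prod_mul_distrib]
  simp_rw [this]
  have h := Finset.prod_univ_sum (fun _ : κ => (Finset.univ : Finset Bool))
    (fun k c => F k c * (if c then P k else 1 - P k))
  rw [Fintype.piFinset_univ] at h
  rw [← h]
  apply Finset.prod_congr rfl
  intro k _
  rw [Fintype.sum_bool]; simp

lemma sum_pw [Fintype κ] [DecidableEq κ] (P : κ → ℝ) : ∑ y : κ → Bool, pw P y = 1 := by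
  have := sum_pw_prod P (fun _ _ => 1)
  simpa using this

/-- Independent rounding of functions of degree `≤ d` inside a function of degree `≤ D`. -/
lemma Deg.noisy_mem [Fintype κ] [DecidableEq κ] {D d : ℕ} {q : (κ → Bool) → ℝ} (hq : q ∈ Deg κ D)
    (P : κ → (ι → Bool) → ℝ) (hP : ∀ k, P k ∈ Deg ι d) :
    (fun x => ∑ y : κ → Bool, q y * pw (fun k => P k x) y) ∈ Deg ι (D * d) := by
  unfold Deg at hq
  induction hq using Submodule.span_induction with
  | mem f hf =>
    obtain ⟨S, hS, rfl⟩ := hf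
    simp only [Set.mem_ofPred_eq] at hS
    have h : (fun x => ∑ y : κ → Bool, chi S y * pw (fun k => P k x) y) =
        fun x => ∏ k ∈ S, (2 * P k x - 1) := by
      funext x
      have h1 : ∀ y : κ → Bool, chi S y = ∏ k, (if k ∈ S then sg (y k) else 1) := by
        intro y; rw [chi, Finset.prod_ite_mem, Finset.univ_inter]
      simp_rw [h1]
      rw [sum_pw_prod (fun k => P k x) (fun k b => if k ∈ S then sg b else 1)]
      have h2 : ∀ k, ((if k ∈ S then sg true else 1) * P k x +
          (if k ∈ S then sg false else 1) * (1 - P k x)) =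
          if k ∈ S then (2 * P k x - 1) else 1 := by
        intro k; split_ifs <;> simp <;> ring
      simp_rw [h2]
      rw [Finset.prod_ite_mem, Finset.univ_inter]
    rw [h]
    have h3 := Deg.prod_mem' S (d := d) (f := fun k x => 2 * P k x - 1)
      (fun k _ => Deg.sub_mem' (Deg.smul_mem' 2 (hP k)) (Deg.const_mem d 1))
    exact Deg.mono' (Nat.mul_le_mul_right _ hS) h3
  | zero => simpa using Deg.const_mem (D * d) 0
  | add f₁ f₂ _ _ h₁ h₂ =>
    have : (fun x => ∑ y : κ → Bool, (f₁ + f₂) y * pw (fun k => P k x) y) =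
      fun x => (∑ y : κ → Bool, f₁ y * pw (fun k => P k x) y) +
        ∑ y : κ → Bool, f₂ y * pw (fun k => P k x) y := by
      funext x; rw [← Finset.sum_add_distrib]
      exact Finset.sum_congr rfl fun y _ => by rw [Pi.add_apply]; ring
    rw [this]; exact Deg.add_mem' h₁ h₂
  | smul c f _ h =>
    have : (fun x => ∑ y : κ → Bool, (c • f) y * pw (fun k => P k x) y) =
      fun x => c * (∑ y : κ → Bool, f y * pw (fun k => P k x) y) := by
      funext x; rw [Finset.mul_sum]
      exact Finset.sum_congr rfl fun y _ => by simp only [Pi.smul_apply, smul_eq_mul]; ring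
    rw [this]; exact Deg.smul_mem' c h

end H87AM
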