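import Pool.Agent.H87.AM.Level

/-!
# Robustness of the construction
-/

namespace H87AM

open Finset

/-- Number of coordinates with value `c`. -/
def cnt {ι : Type} [Fintype ι] (c : Bool) (x : ι → Bool) : ℕ :=
  (Finset.univ.filter (fun k => x k = c)).card

lemma cnt_add {ι : Type} [Fintype ι] (x : ι → Bool) :
    cnt true x + cnt false x = Fintype.card ι := by
  unfold cnt
  have h := Finset.card_filter_add_card_filter_not (s := (Finset.univ : Finset ι))
    (fun k => x k = true)
  rw [Finset.card_univ] at h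
  simpa using h

lemma cnt_prod {ι : Type} [Fintype ι] {T : ℕ} (c : Bool) (x : Fin T × ι → Bool) :
    cnt c x = ∑ i, cnt c (fun k => x (i, k)) := by
  unfold cnt
  rw [Finset.card_filter, Fintype.sum_prod_type]
  apply Finset.sum_congr rfl
  intro i _
  rw [Finset.card_filter]

/-- Robustness: few wrong coordinates do not move the value across. -/
structure Rob {ι : Type} [Fintype ι] (Φ : (ι → Bool) → ℤ) (p : ℕ) (ρ β : ℝ) : Prop where
  hi : ∀ x, (cnt false x : ℝ) ≤ ρ * Fintype.card ι → β * p ≤ Φ x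
  lo : ∀ x, (cnt true x : ℝ) ≤ ρ * Fintype.card ι → (Φ x : ℝ) ≤ -(β * p)

lemma range_filter_card {T : ℕ} (P : Fin T → Prop) [DecidablePred P] (Q : ℕ → Prop)
    [DecidablePred Q] (h : ∀ i (hi : i < T), Q i ↔ P ⟨i, hi⟩) :
    ((Finset.range T).filter Q).card = (Finset.univ.filter P).card := by
  rw [Finset.card_filter, Finset.card_filter, ← Fin.sum_univ_eq_sum_range]
  apply Finset.sum_congr rfl
  intro i _
  have := h i i.2
  simp only [Fin.eta] at this
  simp [this]

lemma Rob.base (p : ℕ) : Rob (baseΦ p) p (1/8) (3/4) where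
  hi := fun x hx => by
    rw [Fintype.card_fin] at hx
    unfold baseΦ
    rw [foldv_eq_fwd]
    have h := fwd_ge (D := 1) (q := p) (by norm_num)
      (s := ext (fun i => if x i then (p:ℤ) else -p)) p 0 0 (cnt false x) (by
      apply le_of_eq
      by_cases hp : p = 0
      · subst hp; simp [cnt]
      · apply range_filter_card
        intro i hi
        simp only [zero_add, ext, hi, dif_pos]
        have : (0:ℤ) < p := by positivity
        cases x ⟨i, hi⟩
        · simp; omega
        · simp)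
    have h2 : ((min ((p:ℤ) - (cnt false x : ℤ) * 1) (0 + ((p:ℤ) - 2 * (cnt false x : ℤ)) * 1) : ℤ) : ℝ) ≤
        (fwd 1 (ext (fun i => if x i then (p:ℤ) else -p)) 0 p 0 : ℤ) := by exact_mod_cast h
    refine le_trans ?_ h2
    push_cast
    apply le_min <;> linarith
  lo := fun x hx => by
    rw [Fintype.card_fin] at hx
    unfold baseΦ
    rw [foldv_eq_fwd]
    have h := fwd_le (D := 1) (q := -p) (by norm_num)
      (s := ext (fun i => if x i then (p:ℤ) else -p)) p 0 0 (cnt true x) (by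
      apply le_of_eq
      by_cases hp : p = 0
      · subst hp; simp [cnt]
      · apply range_filter_card
        intro i hi
        simp only [zero_add, ext, hi, dif_pos]
        have : (0:ℤ) < p := by positivity
        cases x ⟨i, hi⟩
        · simp
        · simp; omega)
    have h2 : ((fwd 1 (ext (fun i => if x i then (p:ℤ) else -p)) 0 p 0 : ℤ) : ℝ) ≤
        ((max (-(p:ℤ) + (cnt true x : ℤ) * 1) (0 - ((p:ℤ) - 2 * (cnt true x : ℤ)) * 1) : ℤ) : ℝ) := by
      exact_mod_cast h
    refine le_trans h2 ?_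
    push_cast
    apply max_le <;> linarith

lemma bad_children {ι : Type} [Fintype ι] {T : ℕ} {K ρ : ℝ} (hK : 8 ≤ K) (hρ : 0 < ρ)
    (hc : 0 < Fintype.card ι) (c : Bool) (x : Fin T × ι → Bool)
    (hx : (cnt c x : ℝ) ≤ ρ / K * Fintype.card (Fin T × ι)) :
    (((Finset.univ.filter (fun i : Fin T => ¬ ((cnt c (fun k => x (i, k)) : ℝ) ≤
      ρ * Fintype.card ι))).card : ℕ) : ℝ) ≤ T / K := by
  set S := Finset.univ.filter (fun i : Fin T => ¬ ((cnt c (fun k => x (i, k)) : ℝ) ≤
      ρ * Fintype.card ι)) with hS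
  have h1 : (S.card : ℝ) * (ρ * Fintype.card ι) ≤ cnt c x := by
    rw [cnt_prod]
    push_cast
    calc (S.card : ℝ) * (ρ * Fintype.card ι) = ∑ _i ∈ S, (ρ * Fintype.card ι) := by
          rw [Finset.sum_const, nsmul_eq_mul]
      _ ≤ ∑ i ∈ S, (cnt c (fun k => x (i, k)) : ℝ) := by
          apply Finset.sum_le_sum
          intro i hi
          rw [hS, Finset.mem_filter] at hi
          push Not at hi
          exact hi.2.le
      _ ≤ ∑ i, (cnt c (fun k => x (i, k)) : ℝ) :=
          Finset.sum_le_sum_of_subset_of_nonneg (Finset.subset_univ _)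
            (fun i _ _ => by positivity)
  rw [Fintype.card_prod, Fintype.card_fin] at hx
  push_cast at hx
  have hc' : (0:ℝ) < Fintype.card ι := by exact_mod_cast hc
  have hK0 : (0:ℝ) < K := by linarith
  rw [le_div_iff₀ hK0]
  have h2 : (S.card : ℝ) * (ρ * Fintype.card ι) ≤ ρ / K * (T * Fintype.card ι) := le_trans h1 hx
  have h3 : ρ / K * (T * Fintype.card ι) * K = T * (ρ * Fintype.card ι) := by
    field_simp
  have h4 : (S.card : ℝ) * K * (ρ * Fintype.card ι) ≤ T * (ρ * Fintype.card ι) := by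
    rw [← h3]; nlinarith
  exact le_of_mul_le_mul_right h4 (by positivity)

lemma Rob.next {ι : Type} [Fintype ι] {Φ : (ι → Bool) → ℤ} {p : ℕ} {ρ β K : ℝ}
    (h : Rob Φ p ρ β) (hK : 8 ≤ K) (hρ : 0 < ρ) (hβ : β ≤ 3/4) (hc : 0 < Fintype.card ι)
    {T : ℕ} {D : ℤ} (hD : 0 ≤ D) (hTD : (T:ℤ) * D = p) :
    Rob (nextΦ D T Φ) p (ρ / K) (β - 1 / K) := by
  have hK0 : (0:ℝ) < K := by linarith
  have hTD' : (T:ℝ) * D = p := by exact_mod_cast hTD
  have hD' : (0:ℝ) ≤ D := by exact_mod_cast hD
  have hp0 : (0:ℝ) ≤ p := by positivity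
  have hTK : ∀ B : ℕ, (B:ℝ) ≤ T / K → (B:ℝ) * D ≤ 1/K * p := by
    intro B hB
    calc (B:ℝ) * D ≤ T / K * D := mul_le_mul_of_nonneg_right hB hD'
      _ = 1/K * p := by rw [← hTD']; ring
  have hpK : 1/K * (p:ℝ) ≤ 1/8 * p := by
    apply mul_le_mul_of_nonneg_right _ hp0
    exact one_div_le_one_div_of_le (by norm_num) hK
  constructor
  · intro x hx
    have hB := bad_children hK hρ hc false x hx
    set S := Finset.univ.filter (fun i : Fin T => ¬ ((cnt false (fun k => x (i, k)) : ℝ) ≤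
      ρ * Fintype.card ι)) with hS
    unfold nextΦ
    rw [foldv_eq_fwd]
    have h1 := fwd_ge (D := D) (q := ⌈β * p⌉) hD
      (s := ext (fun i => Φ (fun k => x (i, k)))) T 0 0 S.card (by
      have h2 : ((Finset.range T).filter (fun j => ext (fun i => Φ (fun k => x (i, k))) (0 + j) <
          ⌈β * p⌉)).card = (Finset.univ.filter (fun i : Fin T =>
            Φ (fun k => x (i, k)) < ⌈β * p⌉)).card := by
        apply range_filter_card
        intro i hi
        simp only [zero_add, ext, hi, dif_pos]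
      rw [h2, hS]
      apply Finset.card_le_card
      intro i hi
      rw [Finset.mem_filter] at hi ⊢
      refine ⟨hi.1, fun hcon => ?_⟩
      have h3 := h.hi _ hcon
      have h4 : ⌈β * p⌉ ≤ Φ (fun k => x (i, k)) := Int.ceil_le.2 (by exact_mod_cast h3)
      omega)
    have h2 : ((min (⌈β * p⌉ - (S.card : ℤ) * D) (0 + ((T:ℤ) - 2 * (S.card : ℤ)) * D) : ℤ) : ℝ) ≤
        (fwd D (ext (fun i => Φ (fun k => x (i, k)))) 0 T 0 : ℤ) := by exact_mod_cast h1
    refine le_trans ?_ h2
    push_cast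
    have h5 := hTK S.card hB
    have h6 : β * p ≤ (⌈β * p⌉ : ℝ) := Int.le_ceil _
    apply le_min
    · nlinarith
    · have : (0:ℝ) + ((T:ℝ) - 2 * (S.card : ℝ)) * D = p - 2 * (S.card * D) := by rw [← hTD']; ring
      rw [this]
      nlinarith
  · intro x hx
    have hB := bad_children hK hρ hc true x hx
    set S := Finset.univ.filter (fun i : Fin T => ¬ ((cnt true (fun k => x (i, k)) : ℝ) ≤
      ρ * Fintype.card ι)) with hS
    unfold nextΦ
    rw [foldv_eq_fwd]
    have h1 := fwd_le (D := D) (q := ⌊-(β * p)⌋) hD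
      (s := ext (fun i => Φ (fun k => x (i, k)))) T 0 0 S.card (by
      have h2 : ((Finset.range T).filter (fun j => ⌊-(β * p)⌋ <
          ext (fun i => Φ (fun k => x (i, k))) (0 + j))).card = (Finset.univ.filter (fun i : Fin T =>
            ⌊-(β * p)⌋ < Φ (fun k => x (i, k)))).card := by
        apply range_filter_card
        intro i hi
        simp only [zero_add, ext, hi, dif_pos]
      rw [h2, hS]
      apply Finset.card_le_card
      intro i hi
      rw [Finset.mem_filter] at hi ⊢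
      refine ⟨hi.1, fun hcon => ?_⟩
      have h3 := h.lo _ hcon
      have h4 : Φ (fun k => x (i, k)) ≤ ⌊-(β * p)⌋ := Int.le_floor.2 (by exact_mod_cast h3)
      omega)
    have h2 : ((fwd D (ext (fun i => Φ (fun k => x (i, k)))) 0 T 0 : ℤ) : ℝ) ≤
        ((max (⌊-(β * p)⌋ + (S.card : ℤ) * D) (0 - ((T:ℤ) - 2 * (S.card : ℤ)) * D) : ℤ) : ℝ) := by
      exact_mod_cast h1
    refine le_trans h2 ?_
    push_cast
    have h5 := hTK S.card hB
    have h6 : (⌊-(β * p)⌋ : ℝ) ≤ -(β * p) := Int.floor_le _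
    apply max_le
    · nlinarith
    · have : (0:ℝ) - ((T:ℝ) - 2 * (S.card : ℝ)) * D = -(p - 2 * (S.card * D)) := by
        rw [← hTD']; ring
      rw [this]
      nlinarith

/-- The construction after `n` levels. -/
theorem construction {b u t J : ℕ} (hp : Par b u t) (hJ : 1 ≤ J) (hJb : J < b) (v : ℕ → ℕ)
    (hv1 : ∀ j < J, 4 * v j + 3 ≤ u) (hv2 : ∀ j < J, v j + (4 * v j + 4) * (j + 1) ≤ u) (n : ℕ)
    (hn : n ≤ J) :
    ∃ (ι : Type) (_ : Fintype ι) (Φ : (ι → Bool) → ℤ),
      Fintype.card ι = b ^ (u + 2 * ∑ j ∈ Finset.range n, v j) ∧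
      Lev b u n ι Φ (u + ∑ j ∈ Finset.range n, (v j + 1)) ∧
      Rob Φ (b ^ u) ((1/8) / (8 * (J:ℝ)) ^ n) (3/4 - n * (1 / (8 * (J:ℝ)))) := by
  have hJ' : (1:ℝ) ≤ J := by exact_mod_cast hJ
  induction n with
  | zero =>
    refine ⟨Fin (b ^ u), inferInstance, baseΦ (b ^ u), by simp, by simpa using Lev.base hp, ?_⟩
    simpa using Rob.base (b ^ u)
  | succ n ih =>
    obtain ⟨ι, hι, Φ, hcard, hL, hR⟩ := ih (by omega)
    have hb0 := hp.b_pos
    refine ⟨Fin (b ^ (2 * v n)) × ι, inferInstance, nextΦ ((b:ℤ) ^ (u - 2 * v n)) (b ^ (2 * v n)) Φ,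
      ?_, ?_, ?_⟩
    · rw [Fintype.card_prod, Fintype.card_fin, hcard, Finset.sum_range_succ, ← pow_add]
      congr 1; ring
    · have h := hL.next (v := v n) hp (hv1 n (by omega)) (by omega)
        (le_trans (hv2 n (by omega)) (Nat.le_add_right _ _))
      rw [Finset.sum_range_succ, ← add_assoc, ← add_assoc]
      exact h
    · have h := hR.next (K := 8 * (J:ℝ)) (by linarith) (by positivity) (by
          have : (0:ℝ) ≤ n * (1 / (8 * (J:ℝ))) := by positivity
          linarith) (by rw [hcard]; positivity) (T := b ^ (2 * v n))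
          (D := (b:ℤ) ^ (u - 2 * v n)) (by positivity) (by
          push_cast
          rw [← pow_add]; congr 1
          have := hv1 n (by omega); omega)
      have e1 : (1/8) / (8 * (J:ℝ)) ^ n / (8 * (J:ℝ)) = (1/8) / (8 * (J:ℝ)) ^ (n + 1) := by
        rw [div_div, ← pow_succ]
      have e2 : 3/4 - (n:ℝ) * (1 / (8 * (J:ℝ))) - 1 / (8 * (J:ℝ)) =
          3/4 - ((n + 1 : ℕ) : ℝ) * (1 / (8 * (J:ℝ))) := by push_cast; ring
      rw [e1, e2] at h
      exact h

end H87AM
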