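import Pool.Agent.H87.AM.Deg

/-!
# Randomised procedures whose transcript probabilities are low-degree polynomials
-/

namespace H87AM

open Finset

/-- Indicator of the failure of `P`. -/
noncomputable def bad (P : Prop) : ℝ := open Classical in if P then 0 else 1

lemma bad_of {P : Prop} (h : P) : bad P = 0 := by simp [bad, h]
lemma bad_of_not {P : Prop} (h : ¬ P) : bad P = 1 := by simp [bad, h]
lemma bad_nonneg (P : Prop) : 0 ≤ bad P := by unfold bad; split_ifs <;> norm_num
lemma bad_le_one (P : Prop) : bad P ≤ 1 := by unfold bad; split_ifs <;> norm_num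
lemma bad_mono {P Q : Prop} (h : P → Q) : bad Q ≤ bad P := by
  by_cases hP : P
  · rw [bad_of (h hP)]; exact bad_nonneg _
  · rw [bad_of_not hP]; exact bad_le_one _
lemma bad_and_le (P Q : Prop) : bad (P ∧ Q) ≤ bad P + bad Q := by
  by_cases hP : P
  · by_cases hQ : Q
    · rw [bad_of ⟨hP, hQ⟩, bad_of hP, bad_of hQ]; norm_num
    · rw [bad_of_not hQ]; linarith [bad_le_one (P ∧ Q), bad_nonneg P]
  · rw [bad_of_not hP]; linarith [bad_le_one (P ∧ Q), bad_nonneg Q]

/-- A randomised procedure: every transcript `ω` has probability `w ω x`, a polynomial of degree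
at most `d` in the input `x`. -/
structure Alg (ι V : Type) (d : ℕ) where
  Ω : Type
  [fin : Fintype Ω]
  w : Ω → (ι → Bool) → ℝ
  out : Ω → V
  nonneg : ∀ ω x, 0 ≤ w ω x
  sum_one : ∀ x, ∑ ω, w ω x = 1
  deg : ∀ ω, w ω ∈ Deg ι d

attribute [instance] Alg.fin

namespace Alg

variable {ι κ V W : Type} {d d₁ d₂ : ℕ}

/-- Expectation of a function of the output. -/
noncomputable def E (A : Alg ι V d) (x : ι → Bool) (h : V → ℝ) : ℝ :=
  ∑ ω, A.w ω x * h (A.out ω)

lemma E_nonneg (A : Alg ι V d) (x : ι → Bool) {h : V → ℝ} (hh : ∀ v, 0 ≤ h v) : 0 ≤ A.E x h :=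
  Finset.sum_nonneg fun ω _ => mul_nonneg (A.nonneg ω x) (hh _)

lemma E_mono (A : Alg ι V d) (x : ι → Bool) {h h' : V → ℝ} (hh : ∀ v, h v ≤ h' v) :
    A.E x h ≤ A.E x h' :=
  Finset.sum_le_sum fun ω _ => mul_le_mul_of_nonneg_left (hh _) (A.nonneg ω x)

lemma E_const (A : Alg ι V d) (x : ι → Bool) (c : ℝ) : A.E x (fun _ => c) = c := by
  unfold E; rw [← Finset.sum_mul, A.sum_one, one_mul]

lemma E_add (A : Alg ι V d) (x : ι → Bool) (h h' : V → ℝ) :
    A.E x (fun v => h v + h' v) = A.E x h + A.E x h' := by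
  unfold E; rw [← Finset.sum_add_distrib]
  exact Finset.sum_congr rfl fun ω _ => by ring

lemma E_mul (A : Alg ι V d) (x : ι → Bool) (c : ℝ) (h : V → ℝ) :
    A.E x (fun v => c * h v) = c * A.E x h := by
  unfold E; rw [Finset.mul_sum]
  exact Finset.sum_congr rfl fun ω _ => by ring

lemma E_le_one (A : Alg ι V d) (x : ι → Bool) {h : V → ℝ} (hh : ∀ v, h v ≤ 1) : A.E x h ≤ 1 := by
  calc A.E x h ≤ A.E x (fun _ => 1) := A.E_mono x hh
    _ = 1 := A.E_const x 1

lemma E_deg (A : Alg ι V d) (h : V → ℝ) : (fun x => A.E x h) ∈ Deg ι d := by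
  unfold E
  apply Deg.sum_mem'
  intro ω _
  have := Deg.smul_mem' (h (A.out ω)) (A.deg ω)
  simpa [mul_comm] using this

/-- Sequential composition. -/
def bind (A : Alg ι V d₁) (B : V → Alg ι W d₂) : Alg ι W (d₁ + d₂) where
  Ω := Σ ω : A.Ω, (B (A.out ω)).Ω
  w := fun p x => A.w p.1 x * (B (A.out p.1)).w p.2 x
  out := fun p => (B (A.out p.1)).out p.2
  nonneg := fun p x => mul_nonneg (A.nonneg _ _) ((B _).nonneg _ _)
  sum_one := fun x => by
    rw [Fintype.sum_sigma]
    calc _ = ∑ ω, A.w ω x * 1 := Finset.sum_congr rfl fun ω _ => by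
            show ∑ ω', A.w ω x * (B (A.out ω)).w ω' x = _
            rw [← Finset.mul_sum, (B (A.out ω)).sum_one]
      _ = 1 := by simp [A.sum_one]
  deg := fun p => Deg.mul_mem' (A.deg _) ((B _).deg _)

lemma E_bind (A : Alg ι V d₁) (B : V → Alg ι W d₂) (x : ι → Bool) (h : W → ℝ) :
    (A.bind B).E x h = A.E x (fun v => (B v).E x h) := by
  show ∑ p : (Σ ω : A.Ω, (B (A.out ω)).Ω), _ = _
  rw [Fintype.sum_sigma]
  unfold E
  apply Finset.sum_congr rfl
  intro ω _
  rw [Finset.mul_sum]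
  exact Finset.sum_congr rfl fun ω' _ => by simp only [bind]; ring

/-- Post-processing of the output. -/
def map (A : Alg ι V d) (f : V → W) : Alg ι W d where
  Ω := A.Ω
  w := A.w
  out := fun ω => f (A.out ω)
  nonneg := A.nonneg
  sum_one := A.sum_one
  deg := A.deg

lemma E_map (A : Alg ι V d) (f : V → W) (x : ι → Bool) (h : W → ℝ) :
    (A.map f).E x h = A.E x (fun v => h (f v)) := rfl

/-- Deterministic output. -/
def pure (v : V) : Alg ι V 0 where
  Ω := Unit
  w := fun _ _ => 1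
  out := fun _ => v
  nonneg := fun _ _ => zero_le_one
  sum_one := fun _ => by simp
  deg := fun _ => Deg.const_mem 0 1

lemma E_pure (v : V) (x : ι → Bool) (h : V → ℝ) : (pure v : Alg ι V 0).E x h = h v := by
  show @Finset.sum Unit ℝ _ (@Finset.univ Unit _) (fun _ => (1:ℝ) * h v) = h v
  simp

/-- Uniform random choice. -/
noncomputable def unif (V : Type) [Fintype V] [Nonempty V] : Alg ι V 0 where
  Ω := V
  w := fun _ _ => 1 / (Fintype.card V : ℝ)
  out := id
  nonneg := fun _ _ => by positivity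
  sum_one := fun _ => by simp
  deg := fun _ => Deg.const_mem 0 _

lemma E_unif (V : Type) [Fintype V] [Nonempty V] (x : ι → Bool) (h : V → ℝ) :
    (unif V : Alg ι V 0).E x h = (∑ v, h v) / (Fintype.card V : ℝ) := by
  unfold E unif
  simp only [id]
  rw [← Finset.mul_sum]; ring

/-- Increase the degree bound. -/
def weaken (A : Alg ι V d₁) (h : d₁ ≤ d₂) : Alg ι V d₂ where
  Ω := A.Ω
  w := A.w
  out := A.out
  nonneg := A.nonneg
  sum_one := A.sum_one
  deg := fun ω => Deg.mono' h (A.deg ω)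

lemma E_weaken (A : Alg ι V d₁) (hd : d₁ ≤ d₂) (x : ι → Bool) (h : V → ℝ) :
    (A.weaken hd).E x h = A.E x h := rfl

/-- A bit that equals `true` with probability `P x`. -/
noncomputable def ofFun (P : (ι → Bool) → ℝ) (hP : P ∈ Deg ι d) (h0 : ∀ x, 0 ≤ P x)
    (h1 : ∀ x, P x ≤ 1) : Alg ι Bool d where
  Ω := Bool
  w := fun b x => if b then P x else 1 - P x
  out := id
  nonneg := fun b x => by
    cases b
    · simp [h1 x]
    · simp [h0 x]
  sum_one := fun x => by simp
  deg := fun b => by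
    cases b
    · simpa using Deg.sub_mem' (Deg.const_mem d 1) hP
    · simpa using hP

lemma E_ofFun (P : (ι → Bool) → ℝ) (hP : P ∈ Deg ι d) (h0 : ∀ x, 0 ≤ P x)
    (h1 : ∀ x, P x ≤ 1) (x : ι → Bool) (h : Bool → ℝ) :
    (ofFun P hP h0 h1).E x h = P x * h true + (1 - P x) * h false := by
  show ∑ b : Bool, (if b then P x else 1 - P x) * h b = _
  rw [Fintype.sum_bool]; simp

/-- Substitution of variables. -/
def subst (A : Alg κ V d) (φ : κ → ι) : Alg ι V d where
  Ω := A.Ω
  w := fun ω x => A.w ω (fun k => x (φ k))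
  out := A.out
  nonneg := fun ω x => A.nonneg ω _
  sum_one := fun x => A.sum_one _
  deg := fun ω => Deg.subst_mem (A.deg ω) φ

lemma E_subst (A : Alg κ V d) (φ : κ → ι) (x : ι → Bool) (h : V → ℝ) :
    (A.subst φ).E x h = A.E (fun k => x (φ k)) h := rfl

/-- Run `A` on independent random bits with marginals `P k x`. -/
noncomputable def noisy [Fintype κ] [DecidableEq κ] (A : Alg κ V d₁)
    (P : κ → (ι → Bool) → ℝ) (hP : ∀ k, P k ∈ Deg ι d₂) (h0 : ∀ k x, 0 ≤ P k x)
    (h1 : ∀ k x, P k x ≤ 1) : Alg ι V (d₁ * d₂) where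
  Ω := A.Ω
  w := fun ω x => ∑ y : κ → Bool, A.w ω y * pw (fun k => P k x) y
  out := A.out
  nonneg := fun ω x => Finset.sum_nonneg fun y _ =>
    mul_nonneg (A.nonneg ω y) (pw_nonneg (fun k => h0 k x) (fun k => h1 k x) y)
  sum_one := fun x => by
    rw [Finset.sum_comm]
    calc _ = ∑ y : κ → Bool, pw (fun k => P k x) y := Finset.sum_congr rfl fun y _ => by
            rw [← Finset.sum_mul, A.sum_one, one_mul]
      _ = 1 := sum_pw _
  deg := fun ω => Deg.noisy_mem (A.deg ω) P hP

lemma E_noisy [Fintype κ] [DecidableEq κ] (A : Alg κ V d₁)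
    (P : κ → (ι → Bool) → ℝ) (hP : ∀ k, P k ∈ Deg ι d₂) (h0 : ∀ k x, 0 ≤ P k x)
    (h1 : ∀ k x, P k x ≤ 1) (x : ι → Bool) (h : V → ℝ) :
    (A.noisy P hP h0 h1).E x h = ∑ y : κ → Bool, A.E y h * pw (fun k => P k x) y := by
  show ∑ ω, (∑ y : κ → Bool, A.w ω y * pw (fun k => P k x) y) * h (A.out ω) = _
  unfold E
  simp_rw [Finset.sum_mul]
  rw [Finset.sum_comm]
  refine Finset.sum_congr rfl fun y _ => Finset.sum_congr rfl fun ω _ => by ring

/-- `t` independent repetitions. -/
def rep (A : Alg ι V d) : (t : ℕ) → Alg ι (Fin t → V) (t * d)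
  | 0 => (pure (fun i => i.elim0)).weaken (by omega)
  | t + 1 => (A.bind (fun v => (rep A t).map (fun u => (Fin.cons v u : Fin (t + 1) → V)))).weaken
      (by rw [Nat.add_mul]; omega)

lemma E_rep_prod (A : Alg ι V d) (x : ι → Bool) (f : V → ℝ) (t : ℕ) :
    (A.rep t).E x (fun v => ∏ i, f (v i)) = (A.E x f) ^ t := by
  induction t with
  | zero => rw [rep, E_weaken, E_pure]; simp
  | succ t ih =>
    rw [rep, E_weaken, E_bind]
    have : ∀ v, ((rep A t).map (fun u => (Fin.cons v u : Fin (t + 1) → V))).E x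
        (fun v => ∏ i, f (v i)) = (A.E x f) ^ t * f v := by
      intro v
      rw [E_map]
      have h1 : ∀ u : Fin t → V, ∏ i, f ((Fin.cons v u : Fin (t + 1) → V) i)
          = f v * ∏ i, f (u i) := by
        intro u; rw [Fin.prod_univ_succ]; simp
      simp_rw [h1]
      rw [E_mul, ih]; ring
    simp_rw [this]
    rw [E_mul, pow_succ]

end Alg

open Alg

variable {ι κ V W : Type} {d d₁ d₂ : ℕ}

/-- `Comp d e G`: some procedure of degree `d` outputs on every input `x` a value `v` with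
`G x v`, except with probability at most `e`. -/
def Comp (d : ℕ) (e : ℝ) (G : (ι → Bool) → V → Prop) : Prop :=
  ∃ A : Alg ι V d, ∀ x, A.E x (fun v => bad (G x v)) ≤ e

namespace Comp

lemma weaken {e e' : ℝ} {G G' : (ι → Bool) → V → Prop} (h : Comp d₁ e G) (hd : d₁ ≤ d₂)
    (he : e ≤ e') (hG : ∀ x v, G x v → G' x v) : Comp d₂ e' G' := by
  obtain ⟨A, hA⟩ := h
  refine ⟨A.weaken hd, fun x => ?_⟩
  rw [E_weaken]
  exact le_trans (A.E_mono x fun v => bad_mono (hG x v)) (le_trans (hA x) he)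

lemma map {e : ℝ} {G : (ι → Bool) → V → Prop} {G' : (ι → Bool) → W → Prop}
    (h : Comp d e G) (f : V → W) (hG : ∀ x v, G x v → G' x (f v)) : Comp d e G' := by
  obtain ⟨A, hA⟩ := h
  refine ⟨A.map f, fun x => ?_⟩
  rw [E_map]
  exact le_trans (A.E_mono x fun v => bad_mono (hG x v)) (hA x)

lemma pure {G : (ι → Bool) → V → Prop} (v : V) (hG : ∀ x, G x v) :
    Comp 0 0 G := by
  refine ⟨Alg.pure v, fun x => ?_⟩
  rw [E_pure, bad_of (hG x)]

lemma bind {e₁ e₂ : ℝ} {G₁ : (ι → Bool) → V → Prop} {G₂ : (ι → Bool) → W → Prop}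
    (he₂ : 0 ≤ e₂) (h₁ : Comp d₁ e₁ G₁)
    (h₂ : ∀ v, Comp d₂ e₂ (fun x u => G₁ x v → G₂ x u)) : Comp (d₁ + d₂) (e₁ + e₂) G₂ := by
  obtain ⟨A, hA⟩ := h₁
  choose B hB using h₂
  refine ⟨A.bind B, fun x => ?_⟩
  rw [E_bind]
  have h : ∀ v, (B v).E x (fun u => bad (G₂ x u)) ≤ bad (G₁ x v) + e₂ := by
    intro v
    by_cases hv : G₁ x v
    · rw [bad_of hv, zero_add]
      refine le_trans ((B v).E_mono x fun u => bad_mono fun hu => hu hv) (hB v x)
    · rw [bad_of_not hv]
      have := (B v).E_le_one x (h := fun u => bad (G₂ x u)) (fun u => bad_le_one _)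
      linarith
  calc A.E x (fun v => (B v).E x (fun u => bad (G₂ x u)))
      ≤ A.E x (fun v => bad (G₁ x v) + e₂) := A.E_mono x h
    _ = A.E x (fun v => bad (G₁ x v)) + e₂ := by rw [E_add, E_const]
    _ ≤ e₁ + e₂ := by linarith [hA x]

/-- Independent computation of a vector of values. -/
lemma vec {e : ℝ} (he : 0 ≤ e) (n : ℕ) {G : Fin n → (ι → Bool) → V → Prop}
    (h : ∀ i, Comp d e (G i)) :
    Comp (n * d) (n * e) (fun x (v : Fin n → V) => ∀ i, G i x (v i)) := by
  induction n with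
  | zero =>
    exact (pure (fun i : Fin 0 => i.elim0) (fun x i => i.elim0)).weaken (by omega) (by simp)
      (fun _ _ h => h)
  | succ n ih =>
    have h1 := h 0
    have h2 := ih (G := fun i => G i.succ) (fun i => h i.succ)
    have h3 : ∀ v, Comp (n * d) (n * e)
        (fun x (u : Fin (n + 1) → V) => G 0 x v → ∀ i, G i x (u i)) := by
      intro v
      refine h2.map (fun u => (Fin.cons v u : Fin (n + 1) → V)) ?_
      intro x u hu h0 i
      refine Fin.cases ?_ ?_ i
      · simpa using h0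
      · intro j; simpa using hu j
    have h4 := bind (by positivity) h1 h3
    refine h4.weaken (by rw [Nat.add_mul]; omega) ?_ (fun _ _ h => h)
    push_cast; linarith

/-- Uniform random choice. -/
lemma unif [Fintype V] [Nonempty V] {e : ℝ} {G : (ι → Bool) → V → Prop}
    (h : ∀ x, ∑ v, bad (G x v) ≤ e * Fintype.card V) : Comp 0 e G := by
  refine ⟨Alg.unif V, fun x => ?_⟩
  rw [E_unif, div_le_iff₀ (by positivity)]
  exact h x

lemma subst {e : ℝ} {G : (κ → Bool) → V → Prop} (h : Comp d e G) (φ : κ → ι) :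
    Comp d e (fun (x : ι → Bool) v => G (fun k => x (φ k)) v) := by
  obtain ⟨A, hA⟩ := h
  exact ⟨A.subst φ, fun x => by rw [E_subst]; exact hA _⟩

/-- From a procedure computing a bit to a polynomial. -/
lemma toPoly {e : ℝ} {F : (ι → Bool) → Bool} (h : Comp d e (fun x v => v = F x)) :
    ∃ P : (ι → Bool) → ℝ, P ∈ Deg ι d ∧ (∀ x, 0 ≤ P x) ∧ (∀ x, P x ≤ 1) ∧
      (∀ x, F x = true → 1 - e ≤ P x) ∧ (∀ x, F x = false → P x ≤ e) := by
  obtain ⟨A, hA⟩ := h
  refine ⟨fun x => A.E x (fun v => if v then 1 else 0), A.E_deg _, fun x => ?_, fun x => ?_,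
    fun x hx => ?_, fun x hx => ?_⟩
  · exact A.E_nonneg x fun v => by split_ifs <;> norm_num
  · exact A.E_le_one x fun v => by split_ifs <;> norm_num
  · have h1 := hA x
    have h2 : A.E x (fun v => if v then (1:ℝ) else 0) + A.E x (fun v => bad (v = F x)) = 1 := by
      rw [← E_add]
      have : (fun v : Bool => (if v then (1:ℝ) else 0) + bad (v = F x)) = fun _ => 1 := by
        funext v; rw [hx]; cases v <;> simp [bad]
      rw [this, E_const]
    linarith
  · have h1 := hA x
    have h2 : A.E x (fun v => if v then (1:ℝ) else 0) = A.E x (fun v => bad (v = F x)) := by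
      congr 1; funext v; rw [hx]; cases v <;> simp [bad]
    show A.E x (fun v => if v then (1:ℝ) else 0) ≤ e
    rw [h2]; exact h1

lemma ofPoly {e : ℝ} {F : (ι → Bool) → Bool} (P : (ι → Bool) → ℝ) (hP : P ∈ Deg ι d)
    (h0 : ∀ x, 0 ≤ P x) (h1 : ∀ x, P x ≤ 1) (ht : ∀ x, F x = true → 1 - e ≤ P x)
    (hf : ∀ x, F x = false → P x ≤ e) : Comp d e (fun x v => v = F x) := by
  refine ⟨Alg.ofFun P hP h0 h1, fun x => ?_⟩
  rw [E_ofFun]
  cases hx : F x
  · have := hf x hx
    rw [bad_of_not (show ¬ (true = F x) by rw [hx]; decide), bad_of (show false = F x from hx.symm)]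
    linarith
  · have := ht x hx
    rw [bad_of_not (show ¬ (false = F x) by rw [hx]; decide), bad_of (show true = F x from hx.symm)]
    linarith

lemma prod_one_sub_ge {κ : Type*} (s : Finset κ) (e : κ → ℝ) (h0 : ∀ k ∈ s, 0 ≤ e k)
    (h1 : ∀ k ∈ s, e k ≤ 1) : 1 - ∑ k ∈ s, e k ≤ ∏ k ∈ s, (1 - e k) := by
  classical
  induction s using Finset.induction_on with
  | empty => simp
  | insert a s ha ih =>
    rw [Finset.sum_insert ha, Finset.prod_insert ha]
    have ih' := ih (fun k hk => h0 k (Finset.mem_insert_of_mem hk))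
      (fun k hk => h1 k (Finset.mem_insert_of_mem hk))
    have ha0 := h0 a (Finset.mem_insert_self _ _)
    have ha1 := h1 a (Finset.mem_insert_self _ _)
    have hs : 0 ≤ ∑ k ∈ s, e k :=
      Finset.sum_nonneg fun k hk => h0 k (Finset.mem_insert_of_mem hk)
    have : (1 - e a) * (1 - ∑ k ∈ s, e k) ≤ (1 - e a) * ∏ k ∈ s, (1 - e k) :=
      mul_le_mul_of_nonneg_left ih' (by linarith)
    nlinarith

/-- Replace the input bits by the results of noisy computations. -/
lemma comp [Fintype κ] [DecidableEq κ] {e e' : ℝ} {G : (κ → Bool) → V → Prop}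
    (h : Comp d₁ e G) (b : (ι → Bool) → κ → Bool) (he' : 0 ≤ e') (he1 : e' ≤ 1)
    (hb : ∀ k, Comp d₂ e' (fun x v => v = b x k)) :
    Comp (d₁ * d₂) (e + Fintype.card κ * e') (fun x v => G (b x) v) := by
  obtain ⟨A, hA⟩ := h
  choose P hP h0 h1 ht hf using fun k => toPoly (hb k)
  refine ⟨A.noisy P hP h0 h1, fun x => ?_⟩
  rw [E_noisy]
  have hterm : ∀ y : κ → Bool, A.E y (fun v => bad (G (b x) v)) * pw (fun k => P k x) y
      ≤ (if y = b x then e * pw (fun k => P k x) y else 0) +
        (pw (fun k => P k x) y - if y = b x then pw (fun k => P k x) y else 0) := by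
    intro y
    have hpw := pw_nonneg (fun k => h0 k x) (fun k => h1 k x) y
    by_cases hy : y = b x
    · simp only [hy, if_true]
      have := hA (b x)
      have h2 : A.E (b x) (fun v => bad (G (b x) v)) * pw (fun k => P k x) (b x) ≤
          e * pw (fun k => P k x) (b x) := mul_le_mul_of_nonneg_right this (by rw [← hy]; exact hpw)
      linarith
    · simp only [hy, if_false]
      have := A.E_le_one y (h := fun v => bad (G (b x) v)) (fun v => bad_le_one _)
      nlinarith
  refine le_trans (Finset.sum_le_sum fun y _ => hterm y) ?_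
  rw [Finset.sum_add_distrib, Finset.sum_sub_distrib, sum_pw]
  simp only [Finset.sum_ite_eq', Finset.mem_univ, if_true]
  have hprod : 1 - Fintype.card κ * e' ≤ pw (fun k => P k x) (b x) := by
    have h2 : (∏ _k : κ, (1 - e')) ≤ pw (fun k => P k x) (b x) := by
      unfold pw
      apply Finset.prod_le_prod
      · intro k _; linarith
      · intro k _
        cases hk : b x k
        · simp only [Bool.false_eq_true, if_false]; linarith [hf k x hk]
        · simp only [if_true]; linarith [ht k x hk]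
    have h3 := prod_one_sub_ge (Finset.univ : Finset κ) (fun _ => e') (fun _ _ => he')
      (fun _ _ => he1)
    simp only [Finset.sum_const, Finset.card_univ, nsmul_eq_mul] at h3
    linarith
  have hpw1 : pw (fun k => P k x) (b x) ≤ 1 := by
    rw [← sum_pw (fun k => P k x)]
    exact Finset.single_le_sum (f := fun y => pw (fun k => P k x) y)
      (fun y _ => pw_nonneg (fun k => h0 k x) (fun k => h1 k x) y) (Finset.mem_univ _)
  have he0 : 0 ≤ e := le_trans (A.E_nonneg (b x) fun v => bad_nonneg _) (hA (b x))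
  nlinarith

/-- Amplification: among `2 t` repetitions fewer than `t` are bad, except with probability
`2⁻ᵗ`. -/
lemma amp {G : (ι → Bool) → V → Prop} (h : Comp d (1/16) G) (t : ℕ) :
    Comp (2 * t * d) ((1/2) ^ t) (fun x (v : Fin (2 * t) → V) =>
      ∑ i, bad (G x (v i)) < t) := by
  obtain ⟨A, hA⟩ := h
  refine ⟨A.rep (2 * t), fun x => ?_⟩
  have hpt : ∀ v : Fin (2 * t) → V, bad (∑ i, bad (G x (v i)) < t) ≤
      (1/4) ^ t * ∏ i, (1 + 3 * bad (G x (v i))) := by
    intro v
    have hprod : (∏ i, (1 + 3 * bad (G x (v i)))) = (4:ℝ) ^ (∑ i, bad (G x (v i)) : ℝ) := by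
      rw [Real.rpow_sum_of_pos (by norm_num)]
      apply Finset.prod_congr rfl
      intro i _
      by_cases hi : G x (v i)
      · rw [bad_of hi]; simp
      · rw [bad_of_not hi]; norm_num
    by_cases hv : ∑ i, bad (G x (v i)) < (t:ℝ)
    · rw [bad_of hv]
      apply mul_nonneg (by positivity)
      exact Finset.prod_nonneg fun i _ => by linarith [bad_nonneg (G x (v i))]
    · rw [bad_of_not hv, hprod]
      rw [not_lt] at hv
      have h1 : (4:ℝ) ^ (t:ℝ) ≤ (4:ℝ) ^ (∑ i, bad (G x (v i)) : ℝ) :=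
        Real.rpow_le_rpow_of_exponent_le (by norm_num) hv
      rw [Real.rpow_natCast] at h1
      calc (1:ℝ) = (1/4) ^ t * 4 ^ t := by rw [← mul_pow]; norm_num
        _ ≤ _ := mul_le_mul_of_nonneg_left h1 (by positivity)
  refine le_trans ((A.rep (2 * t)).E_mono x hpt) ?_
  rw [E_mul]
  have h1 := E_rep_prod A x (fun v => 1 + 3 * bad (G x v)) (2 * t)
  rw [h1, E_add, E_const, E_mul]
  have h2 : 1 + 3 * A.E x (fun v => bad (G x v)) ≤ 19/16 := by linarith [hA x]
  have h3 : 0 ≤ 1 + 3 * A.E x (fun v => bad (G x v)) := by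
    have := A.E_nonneg x (h := fun v => bad (G x v)) (fun v => bad_nonneg _); linarith
  calc (1/4:ℝ) ^ t * (1 + 3 * A.E x (fun v => bad (G x v))) ^ (2 * t)
      ≤ (1/4) ^ t * (19/16) ^ (2 * t) := by
        apply mul_le_mul_of_nonneg_left (pow_le_pow_left₀ h3 h2 _) (by positivity)
    _ = ((1/4) * (19/16)^2) ^ t := by rw [mul_pow, pow_mul]
    _ ≤ (1/2) ^ t := by apply pow_le_pow_left₀ (by norm_num); norm_num

end Comp

/-- A median of a vector of integers. -/
lemma exists_median {n : ℕ} (v : Fin n → ℤ) : ∃ m : ℤ, ∀ l u : ℤ,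
    2 * ∑ i, bad (l ≤ v i ∧ v i ≤ u) < n → l ≤ m ∧ m ≤ u := by
  classical
  -- `m` least with `2 * #{v i ≤ m} ≥ n`
  rcases Nat.eq_zero_or_pos n with hn | hn
  · subst hn
    exact ⟨0, fun l u h => by simp at h⟩
  have hne : (Finset.univ : Finset (Fin n)).Nonempty := ⟨⟨0, hn⟩, Finset.mem_univ _⟩
  let P : ℤ → Prop := fun m => n ≤ 2 * (Finset.univ.filter (fun i => v i ≤ m)).card
  have hP1 : ∃ m, P m := by
    obtain ⟨M, hM⟩ := (Finset.univ.image v).bddAbove
    refine ⟨M, ?_⟩
    have : (Finset.univ.filter (fun i => v i ≤ M)) = Finset.univ := by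
      apply Finset.filter_true_of_mem
      intro i _
      exact hM (Finset.mem_coe.2 (Finset.mem_image_of_mem v (Finset.mem_univ i)))
    simp only [P, this, Finset.card_univ, Fintype.card_fin]; omega
  have hP2 : ∃ b : ℤ, ∀ m, P m → b ≤ m := by
    obtain ⟨L, hL⟩ := (Finset.univ.image v).bddBelow
    refine ⟨L, fun m hm => ?_⟩
    by_contra hlt
    push Not at hlt
    have : (Finset.univ.filter (fun i => v i ≤ m)) = ∅ := by
      apply Finset.filter_false_of_mem
      intro i _ hi
      have := hL (Finset.mem_coe.2 (Finset.mem_image_of_mem v (Finset.mem_univ i)))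
      omega
    simp only [P, this, Finset.card_empty] at hm; omega
  obtain ⟨m, hm, hmin⟩ := Int.exists_least_of_bdd hP2 hP1
  refine ⟨m, fun l u hlu => ?_⟩
  have hsum : ∑ i, bad (l ≤ v i ∧ v i ≤ u) =
      ((Finset.univ.filter (fun i => ¬ (l ≤ v i ∧ v i ≤ u))).card : ℝ) := by
    rw [Finset.card_filter]
    push_cast
    apply Finset.sum_congr rfl
    intro i _
    by_cases h : l ≤ v i ∧ v i ≤ u
    · rw [bad_of h]; simp [h]
    · rw [bad_of_not h]; simp [h]
  rw [hsum] at hlu
  have hlu' : 2 * (Finset.univ.filter (fun i => ¬ (l ≤ v i ∧ v i ≤ u))).card < n := by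
    exact_mod_cast hlu
  have hcard : (Finset.univ : Finset (Fin n)).card = n := by simp
  constructor
  · by_contra hlt
    push Not at hlt
    have hsub : (Finset.univ.filter (fun i => v i ≤ m)) ⊆
        (Finset.univ.filter (fun i => ¬ (l ≤ v i ∧ v i ≤ u))) := by
      intro i; simp only [Finset.mem_filter, Finset.mem_univ, true_and]; intro h1 h2; omega
    have h1 := Finset.card_le_card hsub
    have h2 : n ≤ 2 * (Finset.univ.filter (fun i => v i ≤ m)).card := hm
    omega
  · by_contra hlt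
    push Not at hlt
    have h3 : ¬ P (m - 1) := fun h => by have := hmin _ h; omega
    have h4 : 2 * (Finset.univ.filter (fun i => v i ≤ m - 1)).card < n := by
      simpa [P] using h3
    have h5 := Finset.card_filter_add_card_filter_not (s := (Finset.univ : Finset (Fin n)))
      (fun i => v i ≤ m - 1)
    have hsub : (Finset.univ.filter (fun i => ¬ v i ≤ m - 1)) ⊆
        (Finset.univ.filter (fun i => ¬ (l ≤ v i ∧ v i ≤ u))) := by
      intro i; simp only [Finset.mem_filter, Finset.mem_univ, true_and]; intro h1 h2; omega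
    have h6 := Finset.card_le_card hsub
    omega

/-- Median of a vector of integers. -/
noncomputable def med {n : ℕ} (v : Fin n → ℤ) : ℤ := (exists_median v).choose

lemma med_spec {n : ℕ} (v : Fin n → ℤ) {l u : ℤ}
    (h : 2 * ∑ i, bad (l ≤ v i ∧ v i ≤ u) < n) : l ≤ med v ∧ med v ≤ u :=
  (exists_median v).choose_spec l u h

namespace Comp

lemma ampInt {l u : (ι → Bool) → ℤ} (h : Comp d (1/16) (fun x (v : ℤ) => l x ≤ v ∧ v ≤ u x))
    (t : ℕ) : Comp (2 * t * d) ((1/2) ^ t) (fun x (v : ℤ) => l x ≤ v ∧ v ≤ u x) := by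
  refine (amp h t).map (fun v => med v) ?_
  intro x v hv
  apply med_spec
  push_cast
  linarith

lemma ampBool {F : (ι → Bool) → Bool} (h : Comp d (1/16) (fun x v => v = F x))
    (t : ℕ) : Comp (2 * t * d) ((1/2) ^ t) (fun x v => v = F x) := by
  have h1 : Comp d (1/16) (fun x (v : ℤ) =>
      (if F x then (1:ℤ) else 0) ≤ v ∧ v ≤ (if F x then (1:ℤ) else 0)) := by
    refine h.map (fun b => if b then (1:ℤ) else 0) ?_
    intro x v hv; subst hv; exact ⟨le_refl _, le_refl _⟩
  refine (ampInt h1 t).map (fun v => decide (v = 1)) ?_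
  intro x v hv
  have : v = if F x then (1:ℤ) else 0 := le_antisymm hv.2 hv.1
  subst this
  cases F x <;> simp

end Comp

end H87AM
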