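import Pool.Agent.H87.AM.DL

/-!
# The chain dynamics: canonical rounding by a threshold chain
-/

namespace H87AM

open Finset

/-- Move `φ` towards `s` by at most `D`. -/
def step (D φ s : ℤ) : ℤ := max (φ - D) (min s (φ + D))

/-- The threshold for the previous value. -/
def back (D τ s : ℤ) : ℤ := if s ≤ τ then τ + D else τ - D

lemma step_le_iff {D φ s τ : ℤ} (hD : 0 ≤ D) : step D φ s ≤ τ ↔ φ ≤ back D τ s := by
  unfold step back
  split_ifs <;> omega

/-- Process the entries `i + r - 1, …, i` (in this order) starting from the value `φ`. -/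
def fwd (D : ℤ) (s : ℕ → ℤ) : ℕ → ℕ → ℤ → ℤ
  | _, 0, φ => φ
  | i, r + 1, φ => step D (fwd D s (i + 1) r φ) (s i)

/-- One backward step, when the comparison of entry with `κ` has the result `y`. -/
def nxt (D κ : ℤ) (y : Bool) (τ : ℤ) : ℤ := if κ < τ ∨ (τ = κ ∧ y = true) then τ + D else τ - D

/-- The final decision of the backward process. -/
def V (D : ℤ) (κ : ℕ → ℤ) (c : ℤ) (y : ℕ → Bool) : ℕ → ℕ → ℤ → Bool
  | _, 0, τ => decide (c ≤ τ)
  | i, r + 1, τ => V D κ c y (i + 1) r (nxt D (κ i) (y i) τ)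

/-- The lattice of possible states at index `i`. -/
def Lat (D θ : ℤ) (i : ℕ) (τ : ℤ) : Prop := ∃ k : ℤ, τ = θ + i * D + 2 * D * k

lemma Lat.nxt {D θ κ : ℤ} {i : ℕ} {τ : ℤ} (h : Lat D θ i τ) (y : Bool) :
    Lat D θ (i + 1) (nxt D κ y τ) := by
  obtain ⟨k, rfl⟩ := h
  unfold H87AM.nxt
  split_ifs
  · exact ⟨k, by push_cast; ring⟩
  · exact ⟨k - 1, by push_cast; ring⟩

lemma Lat.gap {D θ : ℤ} (hD : 0 < D) {i : ℕ} {τ τ' : ℤ} (h : Lat D θ i τ) (h' : Lat D θ i τ')
    (hlt : τ < τ') : τ + 2 * D ≤ τ' := by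
  obtain ⟨k, rfl⟩ := h
  obtain ⟨k', rfl⟩ := h'
  have : k < k' := by
    by_contra hcon
    push Not at hcon
    have : 2 * D * k' ≤ 2 * D * k := mul_le_mul_of_nonneg_left hcon (by omega)
    omega
  have : 2 * D * (k + 1) ≤ 2 * D * k' := mul_le_mul_of_nonneg_left (by omega) (by omega)
  nlinarith

/-- Given the exact comparisons, the backward process decides the threshold question. -/
lemma fwd_le_iff {D θ c : ℤ} (hD : 0 < D) {s κ : ℕ → ℤ} {y : ℕ → Bool} {N : ℕ}
    (hy : ∀ i, i < N → y i = decide (s i ≤ κ i))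
    (hup : ∀ i, i < N → ∀ τ, Lat D θ i τ → κ i < τ → s i ≤ τ)
    (hdn : ∀ i, i < N → ∀ τ, Lat D θ i τ → τ < κ i → τ < s i) (r : ℕ) :
    ∀ i τ, i + r ≤ N → Lat D θ i τ → (fwd D s i r c ≤ τ ↔ V D κ c y i r τ = true) := by
  induction r with
  | zero => intro i τ _ _; simp [fwd, V]
  | succ r ih =>
    intro i τ hi hτ
    rw [fwd, step_le_iff hD.le, V]
    have hiN : i < N := by omega
    have : back D τ (s i) = nxt D (κ i) (y i) τ := by
      unfold back nxt
      rw [hy i hiN]
      rcases lt_trichotomy (κ i) τ with h | h | h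
      · rw [if_pos (hup i hiN τ hτ h), if_pos (Or.inl h)]
      · subst h
        by_cases h2 : s i ≤ κ i
        · rw [if_pos h2, if_pos (Or.inr ⟨rfl, by simpa using h2⟩)]
        · rw [if_neg h2, if_neg]
          rintro (h3 | ⟨_, h3⟩)
          · omega
          · exact h2 (by simpa using h3)
      · rw [if_neg (by have := hdn i hiN τ hτ h; omega), if_neg (by omega)]
    rw [this]
    exact ih (i + 1) _ (by omega) (hτ.nxt _)

/-- Trajectories never cross, whatever the comparison results are. -/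
lemma V_mono {D θ c : ℤ} (hD : 0 < D) {κ : ℕ → ℤ} (hκ : ∀ i, Lat D θ i (κ i)) (r : ℕ) :
    ∀ i τ τ' (y y' : ℕ → Bool), Lat D θ i τ → Lat D θ i τ' → τ < τ' →
      V D κ c y i r τ = true → V D κ c y' i r τ' = true := by
  induction r with
  | zero => intro i τ τ' y y' _ _ hlt h; simp only [V, decide_eq_true_eq] at h ⊢; omega
  | succ r ih =>
    intro i τ τ' y y' hτ hτ' hlt h
    rw [V] at h ⊢
    refine ih (i + 1) _ _ y y' (hτ.nxt _) (hτ'.nxt _) ?_ h
    have g1 := Lat.gap hD hτ hτ' hlt
    have g2 : κ i < τ' → κ i + 2 * D ≤ τ' := Lat.gap hD (hκ i) hτ'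
    have g3 : τ < κ i → τ + 2 * D ≤ κ i := Lat.gap hD hτ (hκ i)
    unfold nxt
    split_ifs with h1 h2 h2
    · omega
    · exfalso
      rcases h1 with h1 | h1
      · exact h2 (Or.inl (by omega))
      · exact h2 (Or.inl (by omega))
    · omega
    · omega

/-- For fixed `κ` the decision of the backward process is a decision list. -/
lemma V_eq_evalDL {D θ c : ℤ} (hD : 0 < D) {κ : ℕ → ℤ} (hκ : ∀ i, Lat D θ i (κ i)) (r : ℕ) :
    ∀ i τ, Lat D θ i τ → ∃ l : List (ℕ × Bool), l.length ≤ r ∧ ∃ e : Bool, ∀ y,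
      V D κ c y i r τ = evalDL l e y := by
  induction r with
  | zero =>
    intro i τ _
    exact ⟨[], le_rfl, decide (c ≤ τ), fun y => rfl⟩
  | succ r ih =>
    intro i τ hτ
    rcases lt_trichotomy (κ i) τ with h | h | h
    · obtain ⟨l, hl, e, he⟩ := ih (i + 1) (τ + D) (by
        have := hτ.nxt (κ := κ i) true
        rwa [nxt, if_pos (Or.inl h)] at this)
      refine ⟨l, by omega, e, fun y => ?_⟩
      rw [V, nxt, if_pos (Or.inl h)]; exact he y
    · subst h
      have hup : Lat D θ (i + 1) (κ i + D) := by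
        have := hτ.nxt (κ := κ i) true
        rwa [nxt, if_pos (Or.inr ⟨rfl, rfl⟩)] at this
      have hdn : Lat D θ (i + 1) (κ i - D) := by
        have := hτ.nxt (κ := κ i) false
        rwa [nxt, if_neg (by rintro (h | ⟨_, h⟩); exact absurd h (lt_irrefl _); exact absurd h (by simp))] at this
      obtain ⟨l₁, hl₁, e₁, he₁⟩ := ih (i + 1) (κ i + D) hup
      obtain ⟨l₂, hl₂, e₂, he₂⟩ := ih (i + 1) (κ i - D) hdn
      have hV : ∀ y : ℕ → Bool, V D κ c y i (r + 1) (κ i) =
          if y i = true then V D κ c y (i + 1) r (κ i + D) else V D κ c y (i + 1) r (κ i - D) := by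
        intro y
        rw [V, nxt]
        cases hy : y i
        · rw [if_neg (by rintro (h | ⟨_, h⟩); exact absurd h (lt_irrefl _); exact absurd h (by simp))]
          simp
        · rw [if_pos (Or.inr ⟨rfl, rfl⟩)]; simp
      by_cases hall : ∀ y, V D κ c y (i + 1) r (κ i + D) = true
      · refine ⟨(i, false) :: l₂, by simp; omega, e₂, fun y => ?_⟩
        rw [hV, evalDL]
        cases hy : y i
        · simpa using he₂ y
        · simpa using hall y
      · push Not at hall
        obtain ⟨y', hy'⟩ := hall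
        have hno : ∀ y, V D κ c y (i + 1) r (κ i - D) = false := by
          intro y
          by_contra hcon
          rw [Bool.not_eq_false] at hcon
          exact hy' (V_mono hD hκ r (i + 1) _ _ y y' hdn hup (by omega) hcon)
        refine ⟨(i, true) :: l₁, by simp; omega, e₁, fun y => ?_⟩
        rw [hV, evalDL]
        cases hy : y i
        · simpa using hno y
        · simpa using he₁ y
    · obtain ⟨l, hl, e, he⟩ := ih (i + 1) (τ - D) (by
        have := hτ.nxt (κ := κ i) true
        rwa [nxt, if_neg (by rintro (h' | ⟨h', _⟩) <;> omega)] at this)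
      refine ⟨l, by omega, e, fun y => ?_⟩
      rw [V, nxt, if_neg (by rintro (h' | ⟨h', _⟩) <;> omega)]; exact he y

/-- The lattice point nearest to `v`. -/
def near (D θ : ℤ) (v : ℕ → ℤ) (i : ℕ) : ℤ :=
  θ + i * D + 2 * D * ((v i - (θ + i * D) + D) / (2 * D))

lemma near_lat (D θ : ℤ) (v : ℕ → ℤ) (i : ℕ) : Lat D θ i (near D θ v i) := ⟨_, rfl⟩

lemma near_spec {D θ : ℤ} (hD : 0 < D) (v : ℕ → ℤ) (i : ℕ) :
    near D θ v i - D ≤ v i ∧ v i < near D θ v i + D := by
  unfold near
  set a := v i - (θ + i * D) + D with ha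
  have h1 := Int.emod_add_mul_ediv a (2 * D)
  have h2 := Int.emod_nonneg a (show (2 * D) ≠ 0 by omega)
  have h3 := Int.emod_lt_of_pos a (show 0 < 2 * D by omega)
  constructor
  · have : v i = a + (θ + i * D) - D := by rw [ha]; ring
    rw [this]; linarith
  · have : v i = a + (θ + i * D) - D := by rw [ha]; ring
    rw [this]; linarith

lemma near_up {D θ : ℤ} (hD : 0 < D) {v : ℕ → ℤ} {i : ℕ} {s : ℤ} (hs : |v i - s| < D)
    {τ : ℤ} (hτ : Lat D θ i τ) (h : near D θ v i < τ) : s ≤ τ := by
  have h1 := Lat.gap hD (near_lat D θ v i) hτ h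
  have h2 := (near_spec (θ := θ) hD v i).2
  rw [abs_lt] at hs
  omega

lemma near_dn {D θ : ℤ} (hD : 0 < D) {v : ℕ → ℤ} {i : ℕ} {s : ℤ} (hs : |v i - s| < D)
    {τ : ℤ} (hτ : Lat D θ i τ) (h : τ < near D θ v i) : τ < s := by
  have h1 := Lat.gap hD hτ (near_lat D θ v i) h
  have h2 := (near_spec (θ := θ) hD v i).1
  rw [abs_lt] at hs
  omega

/-- Nonexpansiveness of one step. -/
lemma step_sub_le {D φ φ' s s' e : ℤ} (h1 : |φ - φ'| ≤ e) (h2 : |s - s'| ≤ e) :
    |step D φ s - step D φ' s'| ≤ e := by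
  unfold step
  rw [abs_le] at *
  omega

lemma fwd_sub_le {D : ℤ} {s s' : ℕ → ℤ} {e : ℤ} (he : 0 ≤ e) (r : ℕ) :
    ∀ i φ, (∀ j, i ≤ j → j < i + r → |s j - s' j| ≤ e) → |fwd D s i r φ - fwd D s' i r φ| ≤ e := by
  induction r with
  | zero => intro i φ _; simpa [fwd] using he
  | succ r ih =>
    intro i φ h
    rw [fwd, fwd]
    exact step_sub_le (ih (i + 1) φ fun j hj hj' => h j (by omega) (by omega))
      (h i le_rfl (by omega))

lemma fwd_add {D : ℤ} {s : ℕ → ℤ} (r r' : ℕ) :
    ∀ i φ, fwd D s i (r + r') φ = fwd D s i r (fwd D s (i + r) r' φ) := by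
  induction r with
  | zero => intro i φ; simp [fwd]
  | succ r ih =>
    intro i φ
    rw [show r + 1 + r' = (r + r') + 1 by ring, fwd, fwd, ih (i + 1) φ,
      show i + 1 + r = i + (r + 1) by ring]

/-- Lower bound when at most `B` of the entries are below `q`. -/
lemma fwd_ge {D q : ℤ} (hD : 0 ≤ D) {s : ℕ → ℤ} (r : ℕ) :
    ∀ i φ (B : ℕ), (((Finset.range r).filter (fun j => s (i + j) < q)).card ≤ B) →
      min (q - B * D) (φ + (r - 2 * B) * D) ≤ fwd D s i r φ := by
  induction r with
  | zero =>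
    intro i φ B _
    rw [fwd]
    have : (0:ℤ) ≤ B * D := by positivity
    apply min_le_of_right_le
    push_cast; nlinarith
  | succ r ih =>
    intro i φ B hB
    rw [fwd]
    have hcard : ((Finset.range (r + 1)).filter (fun j => s (i + j) < q)).card =
        ((Finset.range r).filter (fun j => s (i + 1 + j) < q)).card +
          (if s i < q then 1 else 0) := by
      rw [Finset.card_filter, Finset.card_filter, Finset.sum_range_succ']
      simp only [add_zero]
      congr 1
      apply Finset.sum_congr rfl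
      intro j _
      rw [show i + (j + 1) = i + 1 + j by omega]
    rw [hcard] at hB
    by_cases h : s i < q
    · rw [if_pos h] at hB
      obtain ⟨B', rfl⟩ : ∃ B', B = B' + 1 := ⟨B - 1, by omega⟩
      have ih' := ih (i + 1) φ B' (by omega)
      unfold step
      apply le_max_of_le_left
      push_cast
      have : min (q - (B' + 1 : ℤ) * D) (φ + ((r:ℤ) + 1 - 2 * (B' + 1)) * D) ≤
          min (q - B' * D) (φ + (r - 2 * B') * D) - D := by
        rw [← min_sub_sub_right]
        apply min_le_min <;> linarith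
      linarith
    · rw [if_neg h] at hB
      have ih' := ih (i + 1) φ B (by omega)
      unfold step
      apply le_max_of_le_right
      push Not at h
      have hBD : (0:ℤ) ≤ B * D := by positivity
      apply le_min
      · exact le_trans (min_le_left _ _) (by linarith)
      · have : min (q - (B : ℤ) * D) (φ + (((r + 1 : ℕ) : ℤ) - 2 * B) * D) ≤
            min (q - B * D) (φ + (r - 2 * B) * D) + D := by
          rw [← min_add_add_right]
          apply min_le_min
          · linarith
          · push_cast; linarith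
        linarith

lemma step_neg {D : ℤ} (hD : 0 ≤ D) (φ s : ℤ) : step D (-φ) (-s) = -step D φ s := by
  unfold step; omega

lemma fwd_neg {D : ℤ} (hD : 0 ≤ D) {s : ℕ → ℤ} (r : ℕ) :
    ∀ i φ, fwd D (fun j => -s j) i r (-φ) = -fwd D s i r φ := by
  induction r with
  | zero => intro i φ; simp [fwd]
  | succ r ih =>
    intro i φ
    rw [fwd, fwd, ih, step_neg hD]

/-- Upper bound when at most `B` of the entries are above `q`. -/
lemma fwd_le {D q : ℤ} (hD : 0 ≤ D) {s : ℕ → ℤ} (r : ℕ) (i : ℕ) (φ : ℤ) (B : ℕ)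
    (hB : ((Finset.range r).filter (fun j => q < s (i + j))).card ≤ B) :
      fwd D s i r φ ≤ max (q + B * D) (φ - (r - 2 * B) * D) := by
  have h := fwd_ge (q := -q) hD (s := fun j => -s j) r i (-φ) B (by
    refine le_trans (le_of_eq ?_) hB
    congr 1
    ext j; simp only [Finset.mem_filter]; constructor <;> rintro ⟨h1, h2⟩ <;> exact ⟨h1, by omega⟩)
  rw [fwd_neg hD] at h
  have h2 : min (-q - (B:ℤ) * D) (-φ + ((r:ℤ) - 2 * B) * D) =
      - max (q + B * D) (φ - (r - 2 * B) * D) := by
    rw [← min_neg_neg]; congr 1 <;> ring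
  rw [h2] at h
  linarith

end H87AM
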