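import Pool.Agent.H87.AM.Alg

/-!
# Chebyshev search and decision lists
-/

namespace H87AM

open Finset Polynomial

lemma cheb_growth (ε : ℝ) (hε : 0 ≤ ε) (n : ℕ) :
    1 + (n:ℝ)^2 * ε ≤ (Chebyshev.T ℝ n).eval (1 + ε) ∧
    (2 * (n:ℝ) + 1) * ε ≤ (Chebyshev.T ℝ (n+1 : ℕ)).eval (1 + ε) -
      (Chebyshev.T ℝ n).eval (1 + ε) := by
  induction n with
  | zero => simp
  | succ n ih =>
    obtain ⟨h1, h2⟩ := ih
    have h3 : 1 + ((n+1:ℕ):ℝ)^2 * ε ≤ (Chebyshev.T ℝ (n+1 : ℕ)).eval (1 + ε) := by
      have : 1 + ((n+1:ℕ):ℝ)^2 * ε = 1 + (n:ℝ)^2 * ε + (2 * (n:ℝ) + 1) * ε := by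
        push_cast; ring
      rw [this]; linarith
    refine ⟨h3, ?_⟩
    have hrec : (Chebyshev.T ℝ ((n+1+1 : ℕ) : ℤ)) =
        2 * X * Chebyshev.T ℝ ((n+1 : ℕ) : ℤ) - Chebyshev.T ℝ ((n:ℕ):ℤ) := by
      have := Chebyshev.T_add_two ℝ (n : ℤ)
      push_cast
      rw [show ((n:ℤ) + 1 + 1) = n + 2 by ring]
      exact this
    rw [hrec]
    simp only [eval_sub, eval_mul, eval_ofNat, eval_X]
    have h4 : 1 ≤ (Chebyshev.T ℝ (n+1 : ℕ)).eval (1 + ε) := by
      have : (0:ℝ) ≤ ((n+1:ℕ):ℝ)^2 * ε := by positivity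
      linarith
    push_cast at h2 h4 ⊢
    nlinarith

variable {κ : Type}

/-- Chebyshev test for zero of a counting function. -/
lemma comp_zero_test {c : (κ → Bool) → ℕ} (hc : (fun y => (c y : ℝ)) ∈ Deg κ 1)
    {r : ℕ} (hr : 1 ≤ r) (hcr : ∀ y, c y ≤ r ^ 2) :
    Comp (4 * r) (1/16) (fun y (v : Bool) => v = decide (c y = 0)) := by
  have hr' : (1:ℝ) ≤ r := by exact_mod_cast hr
  have hr2 : (0:ℝ) < (r:ℝ)^2 := by positivity
  set T := Chebyshev.T ℝ ((4 * r : ℕ) : ℤ) with hT
  set L : ℝ[X] := C (1 + 2 / (r:ℝ)^2) - C (2 / (r:ℝ)^2) * X with hL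
  set M := T.eval (1 + 2 / (r:ℝ)^2) with hM
  have hMge : 32 ≤ M := by
    have := (cheb_growth (2 / (r:ℝ)^2) (by positivity) (4 * r)).1
    push_cast at this
    have h2 : (4 * (r:ℝ))^2 * (2 / (r:ℝ)^2) = 32 := by field_simp; norm_num
    rw [h2] at this
    rw [hM, hT]; push_cast; linarith
  set Q : ℝ[X] := C (32/33) * (C (1/M) * T.comp L + C (1/32)) with hQ
  have hLdeg : L.natDegree ≤ 1 := by
    rw [hL]
    refine le_trans (natDegree_sub_le _ _) ?_
    simp only [natDegree_C, zero_le, sup_of_le_right]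
    exact le_trans (natDegree_C_mul_le _ _) (by simp)
  have hQdeg : Q.natDegree ≤ 4 * r := by
    rw [hQ]
    refine le_trans (natDegree_C_mul_le _ _) ?_
    refine le_trans (natDegree_add_le _ _) ?_
    simp only [natDegree_C, zero_le, sup_of_le_left]
    refine le_trans (natDegree_C_mul_le _ _) ?_
    refine le_trans natDegree_comp_le ?_
    have : T.natDegree = 4 * r := by rw [hT, Chebyshev.natDegree_T]; exact Int.natAbs_natCast _
    rw [this]
    calc 4 * r * L.natDegree ≤ 4 * r * 1 := Nat.mul_le_mul_left _ hLdeg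
      _ = 4 * r := by ring
  have hLeval : ∀ z : ℝ, L.eval z = 1 + 2 / (r:ℝ)^2 - 2 / (r:ℝ)^2 * z := by
    intro z; simp [hL]
  have hQeval : ∀ z : ℝ, Q.eval z = 32/33 * (1/M * T.eval (L.eval z) + 1/32) := by
    intro z; simp [hQ, eval_comp]
  have hM0 : (0:ℝ) < M := by linarith
  have hQ0 : Q.eval 0 = 1 := by
    rw [hQeval, hLeval, mul_zero, sub_zero, ← hM]
    field_simp; norm_num
  have hQpos : ∀ y, c y ≠ 0 → 0 ≤ Q.eval (c y : ℝ) ∧ Q.eval (c y : ℝ) ≤ 1/16 := by
    intro y hy
    have h1 : (1:ℝ) ≤ c y := by exact_mod_cast Nat.one_le_iff_ne_zero.2 hy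
    have h2 : (c y : ℝ) ≤ (r:ℝ)^2 := by exact_mod_cast hcr y
    have hz : |L.eval (c y : ℝ)| ≤ 1 := by
      rw [hLeval, abs_le]
      have h3 : 2 / (r:ℝ)^2 * c y ≤ 2 := by
        rw [div_mul_eq_mul_div, div_le_iff₀ hr2]; nlinarith
      have h4 : 2 / (r:ℝ)^2 * 1 ≤ 2 / (r:ℝ)^2 * c y :=
        mul_le_mul_of_nonneg_left h1 (by positivity)
      have h5 : 0 < 2 / (r:ℝ)^2 := by positivity
      constructor <;> linarith
    have hTz := Chebyshev.abs_eval_T_real_le_one ((4 * r : ℕ) : ℤ) hz
    rw [← hT, abs_le] at hTz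
    rw [hQeval]
    have h6 : |1/M * T.eval (L.eval (c y : ℝ))| ≤ 1/32 := by
      rw [abs_mul, abs_of_pos (by positivity : (0:ℝ) < 1/M)]
      have h7 : |T.eval (L.eval (c y : ℝ))| ≤ 1 := abs_le.2 hTz
      calc 1/M * |T.eval (L.eval (c y : ℝ))| ≤ 1/M * 1 :=
            mul_le_mul_of_nonneg_left h7 (by positivity)
        _ ≤ 1/32 := by
            rw [mul_one]
            exact one_div_le_one_div_of_le (by norm_num) hMge
    rw [abs_le] at h6
    constructor <;> linarith
  refine Comp.ofPoly (fun y => Q.eval (c y : ℝ)) ?_ ?_ ?_ ?_ ?_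
  · have := Deg.polyEval_mem hc Q hQdeg
    simpa using this
  · intro y
    by_cases h : c y = 0
    · simp only [h, Nat.cast_zero, hQ0]; norm_num
    · exact (hQpos y h).1
  · intro y
    by_cases h : c y = 0
    · simp only [h, Nat.cast_zero, hQ0]; norm_num
    · have := (hQpos y h).2; linarith
  · intro y hy
    have h : c y = 0 := by simpa using hy
    simp only [h, Nat.cast_zero, hQ0]; norm_num
  · intro y hy
    have h : c y ≠ 0 := by simpa using hy
    exact (hQpos y h).2

/-- Reading one bit. -/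
lemma comp_bit (i : κ) : Comp 1 0 (fun (y : κ → Bool) (v : Bool) => v = y i) := by
  refine Comp.ofPoly (fun y => 1/2 + 1/2 * sg (y i)) ?_ ?_ ?_ ?_ ?_
  · exact Deg.add_mem' (Deg.const_mem 1 _) (Deg.smul_mem' _ (Deg.coord_mem i))
  · intro y; cases y i <;> norm_num [sg]
  · intro y; cases y i <;> norm_num [sg]
  · intro y hy; rw [hy]; norm_num [sg]
  · intro y hy; rw [hy]; norm_num [sg]

/-- Evaluation of a decision list: entry `(i, a)` means: stay if `y i = a`, else output `y i`. -/
def evalDL : List (κ × Bool) → Bool → (κ → Bool) → Bool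
  | [], c, _ => c
  | p :: l, c, y => if y p.1 = p.2 then evalDL l c y else y p.1

/-- Number of deviations. -/
def devs (l : List (κ × Bool)) (y : κ → Bool) : ℕ :=
  (l.map (fun p => if y p.1 = p.2 then 0 else 1)).sum

lemma devs_le (l : List (κ × Bool)) (y : κ → Bool) : devs l y ≤ l.length := by
  induction l with
  | nil => simp [devs]
  | cons p l ih =>
    simp only [devs, List.map_cons, List.sum_cons, List.length_cons] at ih ⊢
    split_ifs <;> omega

lemma devs_deg (l : List (κ × Bool)) : (fun y => (devs l y : ℝ)) ∈ Deg κ 1 := by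
  induction l with
  | nil => simpa [devs] using Deg.const_mem 1 0
  | cons p l ih =>
    have h : (fun y => (devs (p :: l) y : ℝ)) =
        fun y => (1/2 + (-(sg p.2) / 2) * sg (y p.1)) + (devs l y : ℝ) := by
      funext y
      simp only [devs, List.map_cons, List.sum_cons, Nat.cast_add]
      congr 1
      cases y p.1 <;> cases p.2 <;> norm_num [sg]
    rw [h]
    exact Deg.add_mem' (Deg.add_mem' (Deg.const_mem 1 _) (Deg.smul_mem' _ (Deg.coord_mem _))) ih

lemma evalDL_append (l₁ l₂ : List (κ × Bool)) (c : Bool) (y : κ → Bool) :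
    evalDL (l₁ ++ l₂) c y = if devs l₁ y = 0 then evalDL l₂ c y else evalDL l₁ c y := by
  induction l₁ with
  | nil => simp [devs]
  | cons p l ih =>
    simp only [List.cons_append, evalDL]
    by_cases h : y p.1 = p.2
    · simp only [h, if_true, ih]
      have : devs (p :: l) y = devs l y := by simp [devs, h]
      rw [this]
    · simp only [h, if_false]
      have : devs (p :: l) y ≠ 0 := by simp [devs, h]
      simp [this]

/-- Decision lists of length at most `r^2` are computed in degree `O(r log)`. -/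
lemma comp_evalDL {r : ℕ} (hr : 1 ≤ r) (t : ℕ) (c : Bool) (s : ℕ) :
    ∀ l : List (κ × Bool), l.length ≤ 2 ^ s → l.length ≤ r ^ 2 →
    Comp (s * (2 * t * (4 * r)) + 1) (s * (1/2) ^ t)
      (fun y (v : Bool) => v = evalDL l c y) := by
  induction s with
  | zero =>
    intro l hl _
    match l, hl with
    | [], _ =>
      exact (Comp.pure (G := fun y (v : Bool) => v = evalDL [] c y) c (fun y => rfl)).weaken
        (by omega) (by simp) (fun _ _ h => h)
    | [p], _ =>
      have h := (comp_bit (κ := κ) p.1).map (G' := fun y (v : Bool) => v = evalDL [p] c y)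
        (fun b => if b = p.2 then c else b) (fun y v hv => by subst hv; rfl)
      exact h.weaken (by omega) (by simp) (fun _ _ h => h)
    | p :: q :: l, h => simp at h
  | succ s ih =>
    intro l hl hlr
    set l₁ := l.take (2 ^ s) with hl₁
    set l₂ := l.drop (2 ^ s) with hl₂
    have hlen₁ : l₁.length ≤ 2 ^ s := by rw [hl₁, List.length_take]; omega
    have hlen₂ : l₂.length ≤ 2 ^ s := by rw [hl₂, List.length_drop]; rw [pow_succ] at hl; omega
    have hlr₁ : l₁.length ≤ r ^ 2 := by rw [hl₁, List.length_take]; omega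
    have hlr₂ : l₂.length ≤ r ^ 2 := by rw [hl₂, List.length_drop]; omega
    have happ : l = l₁ ++ l₂ := (List.take_append_drop _ _).symm
    have hz := (comp_zero_test (devs_deg l₁) hr (fun y => le_trans (devs_le l₁ y) hlr₁)).ampBool t
    have hb : ∀ v : Bool, Comp (s * (2 * t * (4 * r)) + 1) (s * (1/2) ^ t)
        (fun y (u : Bool) => v = decide (devs l₁ y = 0) → u = evalDL l c y) := by
      intro v
      cases v
      · refine (ih l₁ hlen₁ hlr₁).weaken le_rfl le_rfl ?_
        intro y u hu hv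
        have : devs l₁ y ≠ 0 := by simpa using hv.symm
        rw [happ, evalDL_append, if_neg this, hu]
      · refine (ih l₂ hlen₂ hlr₂).weaken le_rfl le_rfl ?_
        intro y u hu hv
        have : devs l₁ y = 0 := by simpa using hv.symm
        rw [happ, evalDL_append, if_pos this, hu]
    have := Comp.bind (by positivity) hz hb
    refine this.weaken ?_ ?_ (fun _ _ h => h)
    · apply le_of_eq; ring
    · push_cast; linarith

end H87AM
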