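import Pool.Agent.H87.AM.Robust

/-!
# Amplification by random majority gadgets
-/

namespace H87AM

open Finset

/-- Strict majority of `true`. -/
def maj {t : ℕ} (z : Fin t → Bool) : Bool := decide (t < 2 * cnt true z)

/-- weight: `2` for the bad colour `c`, `1/2` for the other colour. -/
noncomputable def wt (c b : Bool) : ℝ := if b = c then 2 else 1/2

lemma wt_pos (c b : Bool) : 0 < wt c b := by unfold wt; split_ifs <;> norm_num

lemma prod_wt {t : ℕ} (c : Bool) (z : Fin t → Bool) (h : t ≤ 2 * cnt c z) :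
    1 ≤ ∏ i, wt c (z i) := by
  have h1 : ∏ i, wt c (z i) = 2 ^ (cnt c z) * (1/2) ^ (t - cnt c z) := by
    unfold wt cnt
    rw [Finset.prod_ite, Finset.prod_const, Finset.prod_const]
    congr 2
    have h2 := Finset.card_filter_add_card_filter_not (s := (Finset.univ : Finset (Fin t)))
      (fun i => z i = c)
    rw [Finset.card_univ, Fintype.card_fin] at h2
    omega
  have h3 : cnt c z ≤ t := by
    unfold cnt
    calc _ ≤ (Finset.univ : Finset (Fin t)).card := Finset.card_filter_le _ _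
      _ = t := by simp
  rw [h1, one_div, inv_pow, ← div_eq_mul_inv, le_div_iff₀ (by positivity), one_mul]
  exact pow_le_pow_right₀ (by norm_num) (by omega)

/-- The number of bad gadgets. -/
lemma bad_gadgets {n t : ℕ} (c : Bool) (x : Fin n → Bool) (hx : 4 * cnt c x ≤ n) :
    (((Finset.univ.filter (fun α : Fin t → Fin n => t ≤ 2 * cnt c (fun i => x (α i)))).card : ℕ) : ℝ)
      ≤ (7/8 * (n:ℝ)) ^ t := by
  have h1 : ∑ i : Fin n, wt c (x i) ≤ 7/8 * n := by
    have h2 : ∑ i : Fin n, wt c (x i) = 2 * cnt c x + 1/2 * (n - cnt c x) := by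
      have h3 := Finset.card_filter_add_card_filter_not (s := (Finset.univ : Finset (Fin n)))
        (fun i => x i = c)
      rw [Finset.card_univ, Fintype.card_fin] at h3
      have h4 : ((Finset.univ.filter (fun i : Fin n => ¬ x i = c)).card : ℝ) = n - cnt c x := by
        have : ((cnt c x : ℕ) : ℝ) + ((Finset.univ.filter (fun i : Fin n => ¬ x i = c)).card : ℝ) = n := by
          exact_mod_cast h3
        linarith
      unfold wt
      rw [Finset.sum_ite, Finset.sum_const, Finset.sum_const, nsmul_eq_mul, nsmul_eq_mul, h4]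
      unfold cnt; ring
    rw [h2]
    have h5 : 4 * (cnt c x : ℝ) ≤ n := by exact_mod_cast hx
    linarith
  calc (((Finset.univ.filter (fun α : Fin t → Fin n => t ≤ 2 * cnt c (fun i => x (α i)))).card : ℕ) : ℝ)
      = ∑ α ∈ Finset.univ.filter (fun α : Fin t → Fin n => t ≤ 2 * cnt c (fun i => x (α i))), 1 := by
        simp
    _ ≤ ∑ α ∈ Finset.univ.filter (fun α : Fin t → Fin n => t ≤ 2 * cnt c (fun i => x (α i))),
          ∏ i, wt c (x (α i)) := by
        apply Finset.sum_le_sum
        intro α hα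
        rw [Finset.mem_filter] at hα
        exact prod_wt c _ hα.2
    _ ≤ ∑ α : Fin t → Fin n, ∏ i, wt c (x (α i)) :=
        Finset.sum_le_sum_of_subset_of_nonneg (Finset.subset_univ _)
          (fun α _ _ => Finset.prod_nonneg fun i _ => (wt_pos _ _).le)
    _ = (∑ i : Fin n, wt c (x i)) ^ t := by
        rw [Fintype.sum_pow]
    _ ≤ (7/8 * (n:ℝ)) ^ t :=
        pow_le_pow_left₀ (Finset.sum_nonneg fun i _ => (wt_pos _ _).le) h1 _

/-- The number of assignments with many bad gadgets. -/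
lemma bad_assign {A : Type} [Fintype A] (W : A → Prop) [DecidablePred W] {ε M : ℝ}
    (hε : 0 < ε) (hM : (Fintype.card A : ℝ) = M)
    (hW : ((Finset.univ.filter W).card : ℝ) ≤ ε * M) (N : ℕ) {ρ : ℝ} (hρε : ε ^ ρ ≤ 1/16)
    (hε1 : ε ≤ 1) :
    (((Finset.univ.filter (fun a : Fin N → A =>
      ρ * N < ((Finset.univ.filter (fun k => W (a k))).card : ℝ))).card : ℕ) : ℝ) ≤
      (M / 8) ^ N := by
  have hM0 : 0 ≤ M := by rw [← hM]; positivity
  have hpt : ∀ a : Fin N → A, ρ * N < ((Finset.univ.filter (fun k => W (a k))).card : ℝ) →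
      (16:ℝ) ^ N ≤ ∏ k, (if W (a k) then 1/ε else 1) := by
    intro a ha
    rw [Finset.prod_ite, Finset.prod_const, Finset.prod_const_one, mul_one]
    set m := (Finset.univ.filter (fun k => W (a k))).card with hm
    have h1 : (16:ℝ) ^ N ≤ (1/ε) ^ (ρ * N) := by
      have h2 : (16:ℝ) ≤ (1/ε) ^ ρ := by
        rw [one_div, Real.inv_rpow hε.le, ← one_div, le_div_iff₀ (by positivity)]
        linarith
      rw [Real.rpow_mul (by positivity), Real.rpow_natCast]
      exact pow_le_pow_left₀ (by norm_num) h2 _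
    refine le_trans h1 ?_
    rw [← Real.rpow_natCast]
    apply Real.rpow_le_rpow_of_exponent_le _ ha.le
    rw [le_div_iff₀ hε]; linarith
  have hsum : ∑ a : Fin N → A, ∏ k, (if W (a k) then 1/ε else 1) ≤ (2 * M) ^ N := by
    rw [← Fintype.sum_pow (fun α => if W α then 1/ε else (1:ℝ)) N]
    apply pow_le_pow_left₀ (Finset.sum_nonneg fun i _ => by split_ifs <;> positivity)
    rw [Finset.sum_ite, Finset.sum_const, Finset.sum_const, nsmul_eq_mul, nsmul_eq_mul, mul_one]
    have h3 : ((Finset.univ.filter (fun α => ¬ W α)).card : ℝ) ≤ M := by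
      rw [← hM]
      exact_mod_cast Finset.card_le_univ _
    have h4 : ((Finset.univ.filter W).card : ℝ) * (1/ε) ≤ M := by
      rw [mul_one_div, div_le_iff₀ hε]; linarith
    linarith
  have h5 : (((Finset.univ.filter (fun a : Fin N → A =>
      ρ * N < ((Finset.univ.filter (fun k => W (a k))).card : ℝ))).card : ℕ) : ℝ) * 16 ^ N ≤
      (2 * M) ^ N := by
    refine le_trans ?_ hsum
    calc _ = ∑ a ∈ Finset.univ.filter (fun a : Fin N → A =>
            ρ * N < ((Finset.univ.filter (fun k => W (a k))).card : ℝ)), (16:ℝ) ^ N := by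
          rw [Finset.sum_const, nsmul_eq_mul]
      _ ≤ ∑ a ∈ Finset.univ.filter (fun a : Fin N → A =>
            ρ * N < ((Finset.univ.filter (fun k => W (a k))).card : ℝ)),
            ∏ k, (if W (a k) then 1/ε else 1) := by
          apply Finset.sum_le_sum
          intro a ha
          rw [Finset.mem_filter] at ha
          exact hpt a ha.2
      _ ≤ _ := Finset.sum_le_sum_of_subset_of_nonneg (Finset.subset_univ _)
          (fun a _ _ => Finset.prod_nonneg fun k _ => by split_ifs <;> positivity)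
  have h6 : (M / 8) ^ N * 16 ^ N = (2 * M) ^ N := by rw [← mul_pow]; congr 1; ring
  rw [← h6] at h5
  exact le_of_mul_le_mul_right h5 (by positivity)

/-- Existence of a good assignment of gadgets. -/
lemma exists_assignment {ρ : ℝ} (hρ : 0 < ρ) : ∃ t : ℕ, ∀ n N : ℕ, 1 ≤ n → n ≤ N →
    ∃ a : Fin N → Fin t → Fin n, ∀ (c : Bool) (x : Fin n → Bool), 4 * cnt c x ≤ n →
      ((Finset.univ.filter (fun k => t ≤ 2 * cnt c (fun i => x (a k i)))).card : ℝ) ≤ ρ * N := by
  classical
  obtain ⟨t, ht⟩ : ∃ t : ℕ, (((7:ℝ)/8) ^ ρ) ^ t < 1/16 :=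
    exists_pow_lt_of_lt_one (by norm_num) (Real.rpow_lt_one (by norm_num) (by norm_num) hρ)
  refine ⟨t, fun n N hn hN => ?_⟩
  set ε : ℝ := (7/8) ^ t with hε
  have hε0 : 0 < ε := by positivity
  have hερ : ε ^ ρ ≤ 1/16 := by
    have : ε ^ ρ = (((7:ℝ)/8) ^ ρ) ^ t := by
      rw [hε, ← Real.rpow_natCast, ← Real.rpow_natCast, ← Real.rpow_mul (by norm_num),
        ← Real.rpow_mul (by norm_num), mul_comm]
    rw [this]; exact ht.le
  have hε1 : ε ≤ 1 := pow_le_one₀ (by norm_num) (by norm_num)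
  by_contra hcon
  push Not at hcon
  -- every assignment is bad for some `(c, x)`
  set A := Fin t → Fin n with hA
  have hAcard : (Fintype.card A : ℝ) = (n:ℝ) ^ t := by simp [hA]
  let S : Bool × (Fin n → Bool) → Finset (Fin N → A) := fun q =>
    if 4 * cnt q.1 q.2 ≤ n then Finset.univ.filter (fun a : Fin N → A =>
      ρ * N < ((Finset.univ.filter (fun k => t ≤ 2 * cnt q.1 (fun i => q.2 (a k i)))).card : ℝ))
    else ∅
  have hcover : (Finset.univ : Finset (Fin N → A)) ⊆ Finset.univ.biUnion S := by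
    intro a _
    obtain ⟨c, x, hx, hlt⟩ := hcon a
    rw [Finset.mem_biUnion]
    exact ⟨(c, x), Finset.mem_univ _, by simp only [S, hx, if_true, Finset.mem_filter, Finset.mem_univ, true_and]; exact hlt⟩
  have hScard : ∀ q, ((S q).card : ℝ) ≤ ((n:ℝ) ^ t / 8) ^ N := by
    intro q
    by_cases hq : 4 * cnt q.1 q.2 ≤ n
    · simp only [S, hq, if_true]
      have hW := bad_gadgets (t := t) q.1 q.2 hq
      exact bad_assign (fun α : A => t ≤ 2 * cnt q.1 (fun i => q.2 (α i))) hε0 hAcard
        (by rw [hε, ← mul_pow]; exact hW) N hερ hε1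
    · simp only [S, hq, if_false, Finset.card_empty, Nat.cast_zero]; positivity
  have h1 : (Fintype.card (Fin N → A) : ℝ) ≤ ∑ q : Bool × (Fin n → Bool), ((S q).card : ℝ) := by
    have h2 := Finset.card_le_card hcover
    have h3 := Finset.card_biUnion_le (s := (Finset.univ : Finset (Bool × (Fin n → Bool)))) (t := S)
    rw [Finset.card_univ] at h2
    exact_mod_cast le_trans h2 h3
  have h2 : ∑ q : Bool × (Fin n → Bool), ((S q).card : ℝ) ≤ 2 * 2 ^ n * ((n:ℝ) ^ t / 8) ^ N := by
    calc _ ≤ ∑ _q : Bool × (Fin n → Bool), ((n:ℝ) ^ t / 8) ^ N := Finset.sum_le_sum fun q _ => hScard q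
      _ = _ := by
        rw [Finset.sum_const, Finset.card_univ, Fintype.card_prod, Fintype.card_bool,
          Fintype.card_fun, Fintype.card_bool, Fintype.card_fin, nsmul_eq_mul]
        push_cast; ring
  have h3 : (Fintype.card (Fin N → A) : ℝ) = ((n:ℝ) ^ t) ^ N := by
    rw [Fintype.card_fun, Fintype.card_fin]; push_cast; rw [hAcard]
  rw [h3] at h1
  have h4 : ((n:ℝ) ^ t) ^ N = 8 ^ N * ((n:ℝ) ^ t / 8) ^ N := by rw [← mul_pow]; congr 1; ring
  have h5 : 0 < ((n:ℝ) ^ t / 8) ^ N := by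
    have : (0:ℝ) < n := by exact_mod_cast hn
    positivity
  have h6 : (8:ℝ) ^ N ≤ 2 * 2 ^ n := by
    have := le_trans h1 h2
    rw [h4] at this
    exact le_of_mul_le_mul_right this h5
  have h7 : (2:ℝ) * 2 ^ n < 8 ^ N := by
    have h8 : (2:ℝ) ^ n ≤ 2 ^ N := pow_le_pow_right₀ (by norm_num) hN
    have h9 : (8:ℝ) ^ N = 2 ^ N * 4 ^ N := by rw [← mul_pow]; norm_num
    have h10 : (4:ℝ) ≤ 4 ^ N := by
      calc (4:ℝ) = 4 ^ 1 := by norm_num
        _ ≤ 4 ^ N := pow_le_pow_right₀ (by norm_num) (by omega)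
    rw [h9]
    have h11 : (0:ℝ) < 2 ^ N := by positivity
    nlinarith
  linarith

end H87AM
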