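import Pool.Agent.H87.AM.Sample

/-!
# The recursive construction
-/

namespace H87AM

open Finset

/-- `Φ` on the cube `ι → Bool` can be compared exactly with any threshold in degree `b ^ α`,
and can be approximated within `(j+1) b ^ (u - w)` in degree `b ^ ((2w+2)(j+1))`. -/
structure Lev (b u j : ℕ) (ι : Type) (Φ : (ι → Bool) → ℤ) (α : ℕ) : Prop where
  exact : ∀ θ : ℤ, Comp (b ^ α) (1/16) (fun x (v : Bool) => v = decide (Φ x ≤ θ))
  approx : ∀ w, 2 * w + 1 ≤ u → Comp (b ^ ((2 * w + 2) * (j + 1))) (1/16)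
    (fun x (v : ℤ) => |v - Φ x| ≤ (j + 1) * (b:ℤ) ^ (u - w))

/-- Parameters. -/
structure Par (b u t : ℕ) : Prop where
  ht : 10 ≤ t
  hb : 20 * t ^ 3 ≤ b
  h2 : 64 * b ^ u ≤ 2 ^ t

namespace Par

variable {b u t : ℕ}

lemma b_big (h : Par b u t) : 20000 ≤ b := by
  have h1 := h.ht
  have h2 := h.hb
  have : 10 ^ 3 ≤ t ^ 3 := Nat.pow_le_pow_left h1 3
  omega

lemma b_pos (h : Par b u t) : 0 < b := by have := h.b_big; omega

lemma two_t (h : Par b u t) : 2 * t ≤ b := by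
  have h1 := h.ht
  have h2 := h.hb
  have : t ^ 3 = t * t ^ 2 := by ring
  have h3 : t * 1 ≤ t * t ^ 2 := Nat.mul_le_mul_left _ (Nat.one_le_pow _ _ (by omega))
  omega

lemma half_pow (h : Par b u t) {N : ℕ} (hN : N ≤ b ^ u) : (N:ℝ) * (1/2) ^ t ≤ 1/64 := by
  have h1 : (64 * (b:ℝ) ^ u) ≤ 2 ^ t := by exact_mod_cast h.h2
  have h2 : (N:ℝ) ≤ (b:ℝ) ^ u := by exact_mod_cast hN
  rw [one_div, inv_pow, ← div_eq_mul_inv, div_le_iff₀ (by positivity)]
  linarith

lemma half_pow_t (h : Par b u t) : (t:ℝ) * (1/2) ^ t ≤ 1/64 := by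
  have h1 : ∀ n : ℕ, 10 ≤ n → 64 * n ≤ 2 ^ n := by
    intro n hn
    induction n, hn using Nat.le_induction with
    | base => norm_num
    | succ n hn ih => rw [pow_succ]; omega
  have h2 : (64 * (t:ℝ)) ≤ 2 ^ t := by exact_mod_cast h1 t h.ht
  rw [one_div, inv_pow, ← div_eq_mul_inv, div_le_iff₀ (by positivity)]
  linarith

end Par

lemma Comp.ampAbs {ι : Type} {d : ℕ} {F : (ι → Bool) → ℤ} {η : ℤ}
    (h : Comp d (1/16) (fun x (v : ℤ) => |v - F x| ≤ η)) (t : ℕ) :
    Comp (2 * t * d) ((1/2) ^ t) (fun x (v : ℤ) => |v - F x| ≤ η) := by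
  have h1 : Comp d (1/16) (fun x (v : ℤ) => F x - η ≤ v ∧ v ≤ F x + η) :=
    h.weaken le_rfl le_rfl (fun x v hv => by rw [abs_le] at hv; constructor <;> linarith [hv.1, hv.2])
  refine (h1.ampInt t).weaken le_rfl le_rfl (fun x v hv => ?_)
  rw [abs_le]; constructor <;> linarith [hv.1, hv.2]

/-- The value of the next level. -/
def nextΦ {ι : Type} (D : ℤ) (T : ℕ) (Φ : (ι → Bool) → ℤ) (x : Fin T × ι → Bool) : ℤ :=
  foldv D T (fun i => Φ (fun k => x (i, k))) 0

/-- Approximating a family of children. -/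
lemma comp_children {ι : Type} {T m : ℕ} {Φ : (ι → Bool) → ℤ} {d t : ℕ} {η : ℤ}
    (h : Comp d (1/16) (fun x (v : ℤ) => |v - Φ x| ≤ η)) (idx : Fin m → Fin T) :
    Comp (m * (2 * t * d)) (m * (1/2) ^ t)
      (fun (x : Fin T × ι → Bool) (v : Fin m → ℤ) =>
        ∀ k, |v k - Φ (fun l => x (idx k, l))| ≤ η) := by
  exact Comp.vec (G := fun (k : Fin m) (x : Fin T × ι → Bool) (v : ℤ) =>
      |v - Φ (fun l => x (idx k, l))| ≤ η) (by positivity) m
    (fun k => (h.ampAbs t).subst (fun l => (idx k, l)))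

lemma Lev.next_approx {b u t j v α : ℕ} {ι : Type} {Φ : (ι → Bool) → ℤ} (hp : Par b u t)
    (hL : Lev b u j ι Φ α) (hv : 2 * v ≤ u) (w : ℕ) (hw : 2 * w + 1 ≤ u) :
    Comp (b ^ ((2 * w + 2) * (j + 1 + 1))) (1/16)
      (fun x (v' : ℤ) => |v' - nextΦ ((b:ℤ) ^ (u - 2 * v)) (b ^ (2 * v)) Φ x| ≤
        ((j + 1 : ℕ) + 1) * (b:ℤ) ^ (u - w)) := by
  have hb0 : 0 < b := hp.b_pos
  have hbZ : (0:ℤ) < b := by exact_mod_cast hb0
  set D : ℤ := (b:ℤ) ^ (u - 2 * v) with hD
  have hD0 : 0 ≤ D := by positivity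
  set η : ℤ := (j + 1) * (b:ℤ) ^ (u - w) with hη
  have hη0 : 0 ≤ η := by positivity
  have happ := hL.approx w hw
  have h1b : 1 ≤ b := hb0
  rcases le_or_gt (2 * w + 1) (2 * v) with hcase | hcase
  · -- sample
    set m := b ^ (2 * w + 1) with hm
    set g := b ^ (2 * v - 2 * w - 1) with hg
    have hg1 : 1 ≤ g := Nat.one_le_pow _ _ hb0
    have hT : b ^ (2 * v) = m * g := by rw [hm, hg, ← pow_add]; congr 1; omega
    have hidx : ∀ (k : Fin m) (a : Fin g), (k:ℕ) * g + a < b ^ (2 * v) := by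
      intro k a
      rw [hT]
      calc (k:ℕ) * g + a < k * g + g := by omega
        _ = (k + 1) * g := by ring
        _ ≤ m * g := Nat.mul_le_mul_right _ k.2
    have : Nonempty (Fin m → Fin g) := ⟨fun _ => ⟨0, hg1⟩⟩
    have hsamp : Comp 0 (1/32) (fun (x : Fin (b ^ (2 * v)) × ι → Bool) (a : Fin m → Fin g) =>
        |foldv (g * D) m (fun k => Φ (fun l => x (⟨k * g + a k, hidx k (a k)⟩, l))) 0 -
          nextΦ D (b ^ (2 * v)) Φ x| ≤ (b:ℤ) ^ (u - w)) := by
      apply Comp.unif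
      intro x
      have he : 12 * (m:ℝ) * ((g:ℝ) * ((D:ℤ):ℝ)) ^ 2 ≤ (1/32) * (((b:ℤ) ^ (u - w) : ℤ) : ℝ) ^ 2 := by
        rw [hm, hg, hD]
        push_cast
        have e1 : ((b:ℝ) ^ (2 * v - 2 * w - 1) * (b:ℝ) ^ (u - 2 * v)) = (b:ℝ) ^ (u - 2 * w - 1) := by
          rw [← pow_add]; congr 1; omega
        rw [e1, ← pow_mul, ← pow_mul]
        have e2 : (b:ℝ) ^ (2 * w + 1) * (b:ℝ) ^ ((u - 2 * w - 1) * 2) * b = (b:ℝ) ^ ((u - w) * 2) := by
          rw [← pow_add, ← pow_succ]; congr 1; omega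
        have e3 : (384:ℝ) ≤ b := by exact_mod_cast (by have := hp.b_big; omega : 384 ≤ b)
        have e4 : (0:ℝ) ≤ (b:ℝ) ^ (2 * w + 1) * (b:ℝ) ^ ((u - 2 * w - 1) * 2) := by positivity
        rw [← e2]
        nlinarith
      have := sample_bad (s := ext (fun i => Φ (fun l => x (i, l)))) hD0 hg1 0 m
        (η := (b:ℤ) ^ (u - w)) (by positivity) he 0
      refine le_trans (le_of_eq ?_) this
      apply Finset.sum_congr rfl
      intro a _
      congr 2
      unfold nextΦ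
      rw [foldv_eq_fwd (D := D) (c := 0) (fun i => Φ (fun l => x (i, l)))]
      have hmg : m * g = b ^ (2 * v) := hT.symm
      rw [hmg]
      congr 2
      congr 1
      funext k
      have hk := hidx k (a k)
      simp only [ext, zero_add, hk, dif_pos]
    have hrest : ∀ a : Fin m → Fin g, Comp (m * (2 * t * b ^ ((2 * w + 2) * (j + 1))))
        (m * (1/2) ^ t) (fun (x : Fin (b ^ (2 * v)) × ι → Bool) (z : ℤ) =>
          |foldv (g * D) m (fun k => Φ (fun l => x (⟨k * g + a k, hidx k (a k)⟩, l))) 0 -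
            nextΦ D (b ^ (2 * v)) Φ x| ≤ (b:ℤ) ^ (u - w) →
          |z - nextΦ D (b ^ (2 * v)) Φ x| ≤ ((j + 1 : ℕ) + 1) * (b:ℤ) ^ (u - w)) := by
      intro a
      refine (comp_children (t := t) happ (fun k => ⟨k * g + a k, hidx k (a k)⟩)).map
        (fun vv => foldv (g * D) m vv 0) ?_
      intro x vv hvv hgood
      have h1 := foldv_sub_le (D := g * D) (c := 0) hη0 m vv _ hvv
      rw [abs_le] at *
      rw [hη] at h1
      push_cast
      have h2 : ((j:ℤ) + 1 + 1) * (b:ℤ) ^ (u - w) = (j + 1) * (b:ℤ) ^ (u - w) + (b:ℤ) ^ (u - w) := by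
        ring
      rw [h2]
      constructor <;> linarith [h1.1, h1.2, hgood.1, hgood.2]
    have hfin := Comp.bind (by positivity) hsamp hrest
    refine hfin.weaken ?_ ?_ (fun _ _ h => h)
    · rw [zero_add, hm]
      calc b ^ (2 * w + 1) * (2 * t * b ^ ((2 * w + 2) * (j + 1)))
          ≤ b ^ (2 * w + 1) * (b * b ^ ((2 * w + 2) * (j + 1))) :=
            Nat.mul_le_mul_left _ (Nat.mul_le_mul_right _ hp.two_t)
        _ = b ^ ((2 * w + 2) * (j + 1 + 1)) := by
            rw [← pow_succ', ← pow_add]; congr 1; ring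
    · have : ((m:ℕ):ℝ) * (1/2) ^ t ≤ 1/64 := by
        apply hp.half_pow
        rw [hm]; exact Nat.pow_le_pow_right hb0 hw
      linarith
  · -- read all children
    have hrest := (comp_children (T := b ^ (2 * v)) (t := t) happ (fun k => k)).map
      (G' := fun (x : Fin (b ^ (2 * v)) × ι → Bool) (z : ℤ) =>
        |z - nextΦ D (b ^ (2 * v)) Φ x| ≤ ((j + 1 : ℕ) + 1) * (b:ℤ) ^ (u - w))
      (fun vv => foldv D (b ^ (2 * v)) vv 0) (by
        intro x vv hvv
        have h1 := foldv_sub_le (D := D) (c := 0) hη0 (b ^ (2 * v)) vv _ hvv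
        unfold nextΦ
        refine le_trans h1 ?_
        rw [hη]
        push_cast
        have : (0:ℤ) ≤ (b:ℤ) ^ (u - w) := by positivity
        nlinarith)
    refine hrest.weaken ?_ ?_ (fun _ _ h => h)
    · calc b ^ (2 * v) * (2 * t * b ^ ((2 * w + 2) * (j + 1)))
          ≤ b ^ (2 * w + 1) * (b * b ^ ((2 * w + 2) * (j + 1))) := by
            apply Nat.mul_le_mul
            · exact Nat.pow_le_pow_right hb0 (by omega)
            · exact Nat.mul_le_mul_right _ hp.two_t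
        _ = b ^ ((2 * w + 2) * (j + 1 + 1)) := by
            rw [← pow_succ', ← pow_add]; congr 1; ring
    · have : (((b ^ (2 * v)) : ℕ):ℝ) * (1/2) ^ t ≤ 1/64 := by
        apply hp.half_pow
        exact Nat.pow_le_pow_right hb0 hv
      linarith

lemma Lev.next_exact {b u t j v α : ℕ} {ι : Type} {Φ : (ι → Bool) → ℤ} (hp : Par b u t)
    (hL : Lev b u j ι Φ α) (hv : 4 * v + 3 ≤ u) (hj : j + 1 < b)
    (hα : v + (4 * v + 4) * (j + 1) ≤ α) (θ : ℤ) :
    Comp (b ^ (α + v + 1)) (1/16) (fun x (v' : Bool) =>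
      v' = decide (nextΦ ((b:ℤ) ^ (u - 2 * v)) (b ^ (2 * v)) Φ x ≤ θ)) := by
  have hb0 : 0 < b := hp.b_pos
  have hbZ : (0:ℤ) < b := by exact_mod_cast hb0
  set D : ℤ := (b:ℤ) ^ (u - 2 * v) with hD
  have hD0 : 0 < D := by positivity
  set T := b ^ (2 * v) with hT
  have hT0 : 0 < T := by positivity
  have happ := hL.approx (2 * v + 1) (by omega)
  set η : ℤ := (j + 1) * (b:ℤ) ^ (u - (2 * v + 1)) with hη
  have hηD : η < D := by
    rw [hη, hD]
    have : (b:ℤ) ^ (u - 2 * v) = b * (b:ℤ) ^ (u - (2 * v + 1)) := by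
      rw [← pow_succ']; congr 1; omega
    rw [this]
    apply mul_lt_mul_of_pos_right _ (by positivity)
    exact_mod_cast hj
  have hst1 := comp_children (T := T) (t := t) happ (fun k => k)
  -- second stage
  have hst2 : ∀ vv : Fin T → ℤ, Comp ((t * (2 * t * (4 * b ^ v)) + 1) * (2 * t * b ^ α))
      (t * (1/2) ^ t + T * (1/2) ^ t)
      (fun (x : Fin T × ι → Bool) (v' : Bool) => (∀ k, |vv k - Φ (fun l => x (k, l))| ≤ η) →
        v' = decide (nextΦ D T Φ x ≤ θ)) := by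
    intro vv
    set κ : ℕ → ℤ := fun i => near D θ (ext vv) i with hκ
    obtain ⟨l, hl, e, he⟩ := V_eq_evalDL (c := 0) hD0 (κ := κ)
      (fun i => near_lat D θ (ext vv) i) T 0 θ ⟨0, by simp⟩
    have hbv : 1 ≤ b ^ v := Nat.one_le_pow _ _ hb0
    have hlen1 : l.length ≤ 2 ^ t := by
      refine le_trans hl ?_
      have h1 := hp.h2
      have h2 : T ≤ b ^ u := Nat.pow_le_pow_right hb0 (by omega)
      omega
    have hlen2 : l.length ≤ (b ^ v) ^ 2 := by
      refine le_trans hl (le_of_eq ?_)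
      rw [hT, ← pow_mul]; congr 1; ring
    have hdl := comp_evalDL (κ := ℕ) hbv t e t l hlen1 hlen2
    let φ : ℕ → Fin T := fun i => if h : i < T then ⟨i, h⟩ else ⟨0, hT0⟩
    have hdl2 := hdl.subst (ι := Fin T) φ
    have hbits : ∀ k : Fin T, Comp (2 * t * b ^ α) ((1/2) ^ t)
        (fun (x : Fin T × ι → Bool) (v' : Bool) =>
          v' = decide (Φ (fun l => x (k, l)) ≤ κ k)) := by
      intro k
      exact ((hL.exact (κ k)).ampBool t).subst (fun l => (k, l))
    have hcomp := Comp.comp hdl2 (fun (x : Fin T × ι → Bool) (k : Fin T) =>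
      decide (Φ (fun l => x (k, l)) ≤ κ k)) (by positivity)
      (pow_le_one₀ (by norm_num) (by norm_num)) hbits
    rw [Fintype.card_fin] at hcomp
    refine hcomp.weaken le_rfl le_rfl ?_
    intro x v' hv' hgood
    rw [hv', ← he]
    have hiff := fwd_le_iff (θ := θ) (c := 0) hD0 (s := ext (fun i => Φ (fun l => x (i, l)))) (κ := κ)
      (y := fun i => decide (Φ (fun l => x (φ i, l)) ≤ κ (φ i))) (N := T) ?_ ?_ ?_ T 0 θ (by omega)
      ⟨0, by simp⟩
    · unfold nextΦ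
      rw [foldv_eq_fwd]
      rw [Bool.eq_iff_iff, ← hiff]
      simp
    · intro i hi
      simp only [φ, hi, dif_pos, ext]
    · intro i hi τ hτ hlt
      refine near_up hD0 (v := ext vv) ?_ hτ hlt
      simp only [ext, hi, dif_pos]
      exact lt_of_le_of_lt (hgood ⟨i, hi⟩) hηD
    · intro i hi τ hτ hlt
      refine near_dn hD0 (v := ext vv) ?_ hτ hlt
      simp only [ext, hi, dif_pos]
      exact lt_of_le_of_lt (hgood ⟨i, hi⟩) hηD
  have hfin := Comp.bind (by positivity) hst1 hst2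
  refine hfin.weaken ?_ ?_ (fun _ _ h => h)
  · have ht := hp.ht
    have hb3 := hp.hb
    have e1 : T * (2 * t * b ^ ((2 * (2 * v + 1) + 2) * (j + 1))) ≤ 2 * t * b ^ (α + v) := by
      rw [hT]
      calc b ^ (2 * v) * (2 * t * b ^ ((2 * (2 * v + 1) + 2) * (j + 1)))
          = 2 * t * b ^ (2 * v + (2 * (2 * v + 1) + 2) * (j + 1)) := by rw [pow_add]; ring
        _ ≤ 2 * t * b ^ (α + v) := by
            apply Nat.mul_le_mul_left
            apply Nat.pow_le_pow_right hb0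
            have : (2 * (2 * v + 1) + 2) * (j + 1) = (4 * v + 4) * (j + 1) := by ring
            omega
    have e2 : (t * (2 * t * (4 * b ^ v)) + 1) * (2 * t * b ^ α) ≤ 18 * t ^ 3 * b ^ (α + v) := by
      have h1 : 1 ≤ t ^ 2 * b ^ v := Nat.one_le_iff_ne_zero.2 (by positivity)
      calc (t * (2 * t * (4 * b ^ v)) + 1) * (2 * t * b ^ α)
          ≤ (t * (2 * t * (4 * b ^ v)) + t ^ 2 * b ^ v) * (2 * t * b ^ α) :=
            Nat.mul_le_mul_right _ (by omega)
        _ = 18 * t ^ 3 * b ^ (α + v) := by rw [pow_add]; ring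
    have e3 : 2 * t + 18 * t ^ 3 ≤ b := by
      have : t ^ 3 = t * t ^ 2 := by ring
      have h3 : t * 1 ≤ t * t ^ 2 := Nat.mul_le_mul_left _ (Nat.one_le_pow _ _ (by omega))
      omega
    calc _ ≤ 2 * t * b ^ (α + v) + 18 * t ^ 3 * b ^ (α + v) := Nat.add_le_add e1 e2
      _ = (2 * t + 18 * t ^ 3) * b ^ (α + v) := by ring
      _ ≤ b * b ^ (α + v) := Nat.mul_le_mul_right _ e3
      _ = b ^ (α + v + 1) := by rw [pow_succ']
  · have h1 : ((T:ℕ):ℝ) * (1/2) ^ t ≤ 1/64 := by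
      apply hp.half_pow
      exact Nat.pow_le_pow_right hb0 (by omega)
    have h2 := hp.half_pow_t
    linarith

lemma Lev.next {b u t j v α : ℕ} {ι : Type} {Φ : (ι → Bool) → ℤ} (hp : Par b u t)
    (hL : Lev b u j ι Φ α) (hv : 4 * v + 3 ≤ u) (hj : j + 1 < b)
    (hα : v + (4 * v + 4) * (j + 1) ≤ α) :
    Lev b u (j + 1) (Fin (b ^ (2 * v)) × ι)
      (nextΦ ((b:ℤ) ^ (u - 2 * v)) (b ^ (2 * v)) Φ) (α + v + 1) where
  exact := fun θ => hL.next_exact hp hv hj hα θ
  approx := fun w hw => by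
    have := hL.next_approx (v := v) hp (by omega) w hw
    exact_mod_cast this

/-- The value at level zero. -/
def baseΦ (p : ℕ) (x : Fin p → Bool) : ℤ :=
  foldv 1 p (fun i => if x i then (p:ℤ) else -p) 0

lemma Lev.base {b u t : ℕ} (hp : Par b u t) : Lev b u 0 (Fin (b ^ u)) (baseΦ (b ^ u)) u where
  exact := fun θ => by
    refine (Comp.ofPoly (d := b ^ u) (e := 0) (F := fun x => decide (baseΦ (b ^ u) x ≤ θ))
      (fun x => if baseΦ (b ^ u) x ≤ θ then 1 else 0) ?_ ?_ ?_ ?_ ?_).weaken le_rfl (by norm_num)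
      (fun _ _ h => h)
    · have := Deg.mem_card (ι := Fin (b ^ u)) (fun x => if baseΦ (b ^ u) x ≤ θ then (1:ℝ) else 0)
      simpa using this
    · intro x; split_ifs <;> norm_num
    · intro x; split_ifs <;> norm_num
    · intro x hx; simp only [decide_eq_true_eq] at hx; simp [hx]
    · intro x hx; simp only [decide_eq_false_iff_not] at hx; simp [hx]
  approx := fun w hw => by
    have hb0 : 0 < b := hp.b_pos
    set m := b ^ (2 * w + 1) with hm
    set g := b ^ (u - 2 * w - 1) with hg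
    have hg1 : 1 ≤ g := Nat.one_le_pow _ _ hb0
    have hT : b ^ u = m * g := by rw [hm, hg, ← pow_add]; congr 1; omega
    have hidx : ∀ (k : Fin m) (a : Fin g), (k:ℕ) * g + a < b ^ u := by
      intro k a
      rw [hT]
      calc (k:ℕ) * g + a < k * g + g := by omega
        _ = (k + 1) * g := by ring
        _ ≤ m * g := Nat.mul_le_mul_right _ k.2
    have : Nonempty (Fin m → Fin g) := ⟨fun _ => ⟨0, hg1⟩⟩
    have hsamp : Comp 0 (1/32) (fun (x : Fin (b ^ u) → Bool) (a : Fin m → Fin g) =>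
        |foldv (g * 1) m (fun k => if x ⟨k * g + a k, hidx k (a k)⟩ then ((b ^ u : ℕ) : ℤ)
          else -((b ^ u : ℕ) : ℤ)) 0 - baseΦ (b ^ u) x| ≤ (b:ℤ) ^ (u - w)) := by
      apply Comp.unif
      intro x
      have he : 12 * (m:ℝ) * ((g:ℝ) * ((1:ℤ):ℝ)) ^ 2 ≤ (1/32) * (((b:ℤ) ^ (u - w) : ℤ) : ℝ) ^ 2 := by
        rw [hm, hg]
        push_cast
        rw [mul_one, ← pow_mul, ← pow_mul]
        have e2 : (b:ℝ) ^ (2 * w + 1) * (b:ℝ) ^ ((u - 2 * w - 1) * 2) * b = (b:ℝ) ^ ((u - w) * 2) := by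
          rw [← pow_add, ← pow_succ]; congr 1; omega
        have e3 : (384:ℝ) ≤ b := by exact_mod_cast (by have := hp.b_big; omega : 384 ≤ b)
        have e4 : (0:ℝ) ≤ (b:ℝ) ^ (2 * w + 1) * (b:ℝ) ^ ((u - 2 * w - 1) * 2) := by positivity
        rw [← e2]
        nlinarith
      have := sample_bad (s := ext (fun i => if x i then ((b ^ u : ℕ) : ℤ) else -((b ^ u : ℕ) : ℤ)))
        (D := 1) (by norm_num) hg1 0 m (η := (b:ℤ) ^ (u - w)) (by positivity) he 0
      refine le_trans (le_of_eq ?_) this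
      apply Finset.sum_congr rfl
      intro a _
      congr 2
      unfold baseΦ
      rw [foldv_eq_fwd (D := 1) (c := 0) (fun i => if x i then ((b ^ u : ℕ) : ℤ) else -((b ^ u : ℕ) : ℤ))]
      have hmg : m * g = b ^ u := hT.symm
      rw [hmg]
      congr 2
      congr 1
      funext k
      have hk := hidx k (a k)
      simp only [ext, zero_add, hk, dif_pos]
    have hrest : ∀ a : Fin m → Fin g, Comp (m * 1)
        (m * 0) (fun (x : Fin (b ^ u) → Bool) (z : ℤ) =>
          |foldv (g * 1) m (fun k => if x ⟨k * g + a k, hidx k (a k)⟩ then ((b ^ u : ℕ) : ℤ)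
          else -((b ^ u : ℕ) : ℤ)) 0 - baseΦ (b ^ u) x| ≤ (b:ℤ) ^ (u - w) →
          |z - baseΦ (b ^ u) x| ≤ ((0 : ℕ) + 1) * (b:ℤ) ^ (u - w)) := by
      intro a
      have hbits := Comp.vec (le_refl (0:ℝ)) m (G := fun k (x : Fin (b ^ u) → Bool) (z : Bool) =>
        z = x ⟨k * g + a k, hidx k (a k)⟩) (fun k => comp_bit _)
      refine hbits.map (fun vv => foldv (g * 1) m (fun k => if vv k then ((b ^ u : ℕ) : ℤ)
          else -((b ^ u : ℕ) : ℤ)) 0) ?_
      intro x vv hvv hgood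
      have : vv = fun k => x ⟨k * g + a k, hidx k (a k)⟩ := funext hvv
      subst this
      simpa using hgood
    have hfin := Comp.bind (by simp) hsamp hrest
    refine hfin.weaken ?_ (by norm_num) (fun x v h => by exact_mod_cast h)
    rw [zero_add, mul_one, hm]
    exact Nat.pow_le_pow_right hb0 (by omega)

end H87AM
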