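import Pool.Agent.H87.AM.Chain

/-!
# Subsampling the chain dynamics
-/

namespace H87AM

open Finset

/-- The dynamics for a vector of entries; the last entry is processed first. -/
def foldv (D : ℤ) : (m : ℕ) → (Fin m → ℤ) → ℤ → ℤ
  | 0, _, c => c
  | m + 1, u, c => step D (foldv D m (Fin.tail u) c) (u 0)

/-- Extension of a vector by zero. -/
def ext {m : ℕ} (u : Fin m → ℤ) (k : ℕ) : ℤ := if h : k < m then u ⟨k, h⟩ else 0

lemma foldv_eq_fwd_aux (D : ℤ) (s : ℕ → ℤ) (c : ℤ) (m : ℕ) :
    ∀ i, foldv D m (fun k => s (i + k)) c = fwd D s i m c := by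
  induction m with
  | zero => intro i; rfl
  | succ m ih =>
    intro i
    rw [foldv, fwd]
    have : Fin.tail (fun k : Fin (m + 1) => s (i + k)) = fun k : Fin m => s (i + 1 + k) := by
      funext k; simp only [Fin.tail, Fin.val_succ]; congr 1; omega
    rw [this, ih (i + 1)]
    simp

lemma foldv_eq_fwd {D c : ℤ} {m : ℕ} (u : Fin m → ℤ) : foldv D m u c = fwd D (ext u) 0 m c := by
  rw [← foldv_eq_fwd_aux]
  congr 1
  funext k
  simp [ext]

lemma foldv_sub_le {D e c : ℤ} (he : 0 ≤ e) (m : ℕ) :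
    ∀ (u u' : Fin m → ℤ), (∀ k, |u k - u' k| ≤ e) → |foldv D m u c - foldv D m u' c| ≤ e := by
  induction m with
  | zero => intro u u' _; simpa [foldv] using he
  | succ m ih =>
    intro u u' h
    rw [foldv, foldv]
    exact step_sub_le (ih _ _ fun k => h k.succ) (h 0)

lemma step_bound {D φ s : ℤ} (hD : 0 ≤ D) : |step D φ s - φ| ≤ D := by
  unfold step; rw [abs_le]; omega

lemma fwd_bound {D : ℤ} (hD : 0 ≤ D) {s : ℕ → ℤ} (r : ℕ) :
    ∀ i φ, |fwd D s i r φ - φ| ≤ r * D := by
  induction r with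
  | zero => intro i φ; simp [fwd]
  | succ r ih =>
    intro i φ
    rw [fwd]
    have h1 := ih (i + 1) φ
    have h2 := step_bound (φ := fwd D s (i + 1) r φ) (s := s i) hD
    rw [abs_le] at *
    push_cast
    constructor <;> linarith [h1.1, h1.2, h2.1, h2.2]

lemma step_compare {D g φ ψ s : ℤ} (hD : 0 ≤ D) (hg : 1 ≤ g) (h : ψ + g * D ≤ φ) :
    step (g * D) φ s - φ ≤ g * (step D ψ s - ψ) := by
  have hh : D ≤ g * D := by nlinarith
  unfold step
  rcases le_or_gt D (s - ψ) with h1 | h1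
  · have : max (ψ - D) (min s (ψ + D)) - ψ = D := by omega
    rw [this]; omega
  · rcases le_or_gt (-D) (s - ψ) with h2 | h2
    · have : max (ψ - D) (min s (ψ + D)) - ψ = s - ψ := by omega
      rw [this]
      rcases le_or_gt 0 (s - ψ) with h3 | h3
      · have : 0 ≤ g * (s - ψ) := mul_nonneg (by omega) h3
        omega
      · have : 0 ≤ g * (s - ψ + D) := mul_nonneg (by omega) (by omega)
        have h4 : g * (s - ψ + D) = g * (s - ψ) + g * D := by ring
        omega
    · have : max (ψ - D) (min s (ψ + D)) - ψ = -D := by omega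
      rw [this]
      have h4 : g * (-D) = -(g * D) := by ring
      omega

lemma group_drift {D g φ₁ φ : ℤ} (hD : 0 ≤ D) (hg : 1 ≤ g) (h : φ + 2 * (g * D) ≤ φ₁)
    {s : ℕ → ℤ} (r : ℕ) (hr : (r : ℤ) ≤ g) : ∀ i,
    ∑ x ∈ Finset.range r, (step (g * D) φ₁ (s (i + x)) - φ₁) ≤ g * (fwd D s i r φ - φ) := by
  induction r with
  | zero => intro i; simp [fwd]
  | succ r ih =>
    intro i
    rw [Finset.sum_range_succ']
    have ih' := ih (by push_cast at hr; omega) (i + 1)
    have h1 : ∀ x, s (i + (x + 1)) = s (i + 1 + x) := fun x => by congr 1; omega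
    simp_rw [h1]
    rw [fwd]
    set ψ := fwd D s (i + 1) r φ with hψ
    have h2 : |ψ - φ| ≤ r * D := fwd_bound hD r (i + 1) φ
    have h3 : (r:ℤ) * D ≤ g * D := by
      apply mul_le_mul_of_nonneg_right _ hD
      push_cast at hr; omega
    rw [abs_le] at h2
    have h4 := step_compare (s := s i) (φ := φ₁) (ψ := ψ) hD hg (by linarith [h2.2])
    simp only [add_zero]
    have h5 : g * (step D ψ (s i) - φ) = g * (step D ψ (s i) - ψ) + g * (ψ - φ) := by ring
    rw [h5]
    linarith

lemma group_sq {D : ℤ} (hD : 0 ≤ D) {g : ℕ} (hg : 1 ≤ g) {s : ℕ → ℤ} (i : ℕ) (φ₁ φ : ℤ) :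
    ∑ x : Fin g, (step (g * D) φ₁ (s (i + x)) - fwd D s i g φ) ^ 2 ≤
      g * ((φ₁ - φ) ^ 2 + 12 * (g * D) ^ 2) := by
  have hg' : (1:ℤ) ≤ g := by exact_mod_cast hg
  set h : ℤ := g * D with hh
  have hh0 : 0 ≤ h := by positivity
  set b := fwd D s i g φ - φ with hb
  have hbb : |b| ≤ h := fwd_bound hD g i φ
  rw [Fin.sum_univ_eq_sum_range (fun x => (step h φ₁ (s (i + x)) - fwd D s i g φ) ^ 2) g]
  set e := φ₁ - φ with he
  let a : ℕ → ℤ := fun x => step h φ₁ (s (i + x)) - φ₁
  have ha : ∀ x, |a x| ≤ h := fun x => step_bound hh0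
  have hsq : ∀ x ∈ Finset.range g, (step h φ₁ (s (i + x)) - fwd D s i g φ) ^ 2 ≤
      e ^ 2 + 4 * h ^ 2 + 2 * e * (a x - b) := by
    intro x _
    have h1 : step h φ₁ (s (i + x)) - fwd D s i g φ = e + (a x - b) := by
      simp only [a, hb, he]; ring
    rw [h1]
    have h2 : (a x - b) ^ 2 ≤ 4 * h ^ 2 := by
      have h3 : |a x - b| ≤ 2 * h := by
        have := ha x
        rw [abs_le] at *; constructor <;> linarith [this.1, this.2, hbb.1, hbb.2]
      have := sq_le_sq' (abs_le.1 h3).1 (abs_le.1 h3).2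
      nlinarith
    nlinarith
  refine le_trans (Finset.sum_le_sum hsq) ?_
  rw [Finset.sum_add_distrib, ← Finset.mul_sum, Finset.sum_const, Finset.card_range,
    Finset.sum_sub_distrib, Finset.sum_const, Finset.card_range]
  simp only [nsmul_eq_mul]
  have hkey : e * (∑ x ∈ Finset.range g, a x - g * b) ≤ 4 * g * h ^ 2 := by
    rcases le_or_gt (2 * h) e with h1 | h1
    · have h2 : ∑ x ∈ Finset.range g, a x ≤ g * b :=
        group_drift (g := g) (φ := φ) (φ₁ := φ₁) hD hg' (by rw [← hh]; linarith) g le_rfl i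
      have h3 : 0 ≤ e := by linarith
      have : e * (∑ x ∈ Finset.range g, a x - g * b) ≤ 0 :=
        mul_nonpos_of_nonneg_of_nonpos h3 (by linarith)
      have : 0 ≤ 4 * g * h ^ 2 := by positivity
      linarith
    · rcases le_or_gt e (-(2 * h)) with h2 | h2
      · have h3 := group_drift (g := g) (φ := -φ) (φ₁ := -φ₁) (s := fun j => -s j) hD hg'
          (by rw [← hh]; linarith) g le_rfl i
        rw [fwd_neg hD] at h3
        have h4 : ∑ x ∈ Finset.range g, (step (↑g * D) (-φ₁) (-s (i + x)) - -φ₁) =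
            - ∑ x ∈ Finset.range g, a x := by
          rw [← Finset.sum_neg_distrib]
          apply Finset.sum_congr rfl
          intro x _
          rw [step_neg (by rw [← hh]; exact hh0), ← hh]; simp only [a]; ring
        rw [h4] at h3
        have h5 : 0 ≤ ∑ x ∈ Finset.range g, a x - g * b := by
          have : (g:ℤ) * (-fwd D s i g φ - -φ) = -(g * b) := by rw [hb]; ring
          linarith
        have : e * (∑ x ∈ Finset.range g, a x - g * b) ≤ 0 :=
          mul_nonpos_of_nonpos_of_nonneg (by linarith) h5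
        have : 0 ≤ 4 * g * h ^ 2 := by positivity
        linarith
      · have h3 : |∑ x ∈ Finset.range g, a x - g * b| ≤ 2 * g * h := by
          have h4 : |∑ x ∈ Finset.range g, a x| ≤ g * h := by
            refine le_trans (Finset.abs_sum_le_sum_abs _ _) ?_
            refine le_trans (Finset.sum_le_sum fun x _ => ha x) ?_
            simp
          have h5 : |(g:ℤ) * b| ≤ g * h := by
            rw [abs_mul, abs_of_nonneg (by positivity : (0:ℤ) ≤ g)]
            exact mul_le_mul_of_nonneg_left hbb (by positivity)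
          rw [abs_le] at *; constructor <;> linarith [h4.1, h4.2, h5.1, h5.2]
        have h6 : |e| ≤ 2 * h := by rw [abs_le]; constructor <;> linarith
        calc e * (∑ x ∈ Finset.range g, a x - g * b)
            ≤ |e * (∑ x ∈ Finset.range g, a x - g * b)| := le_abs_self _
          _ = |e| * |∑ x ∈ Finset.range g, a x - g * b| := abs_mul _ _
          _ ≤ (2 * h) * (2 * g * h) := mul_le_mul h6 h3 (abs_nonneg _) (by linarith)
          _ = 4 * g * h ^ 2 := by ring
  nlinarith

/-- Second moment bound for the subsampled dynamics. -/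
lemma sample_sq {D : ℤ} (hD : 0 ≤ D) {g : ℕ} (hg : 1 ≤ g) {s : ℕ → ℤ} (c : ℤ) (m : ℕ) :
    ∀ i, ∑ a : Fin m → Fin g, (foldv (g * D) m (fun k => s (i + k * g + a k)) c -
      fwd D s i (m * g) c) ^ 2 ≤ g ^ m * (12 * m * (g * D) ^ 2) := by
  induction m with
  | zero => intro i; simp [foldv, fwd]
  | succ m ih =>
    intro i
    rw [← (Fin.consEquiv (fun _ : Fin (m + 1) => Fin g)).sum_comp, Fintype.sum_prod_type,
      Finset.sum_comm]
    have hstep : ∀ a : Fin m → Fin g,
        ∑ x : Fin g, (foldv (g * D) (m + 1)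
          (fun k => s (i + k * g + (Fin.consEquiv (fun _ : Fin (m + 1) => Fin g)) (x, a) k)) c -
          fwd D s i ((m + 1) * g) c) ^ 2 ≤
        g * ((foldv (g * D) m (fun k => s (i + g + k * g + a k)) c -
          fwd D s (i + g) (m * g) c) ^ 2 + 12 * (g * D) ^ 2) := by
      intro a
      have h := group_sq hD hg (s := s) i (foldv (g * D) m (fun k => s (i + g + k * g + a k)) c)
        (fwd D s (i + g) (m * g) c)
      refine le_trans (le_of_eq ?_) h
      apply Finset.sum_congr rfl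
      intro x _
      rw [show (m + 1) * g = g + m * g by ring, fwd_add, foldv]
      congr 2
      have h1 : Fin.tail (fun k : Fin (m + 1) => s (i + k * g +
          (Fin.consEquiv (fun _ : Fin (m + 1) => Fin g)) (x, a) k)) =
          fun k : Fin m => s (i + g + k * g + a k) := by
        funext k
        simp only [Fin.tail, Fin.consEquiv, Equiv.coe_fn_mk, Fin.cons_succ, Fin.val_succ]
        congr 1; ring
      rw [h1]
      simp [Fin.consEquiv]
    refine le_trans (Finset.sum_le_sum fun a _ => hstep a) ?_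
    rw [← Finset.mul_sum, Finset.sum_add_distrib, Finset.sum_const, Finset.card_univ]
    have h2 : (Fintype.card (Fin m → Fin g) : ℤ) = (g:ℤ) ^ m := by simp
    rw [nsmul_eq_mul, h2]
    have h3 := ih (i + g)
    have hg0 : (0:ℤ) ≤ g := by positivity
    calc (g:ℤ) * (∑ a : Fin m → Fin g, (foldv (g * D) m (fun k => s (i + g + k * g + a k)) c -
          fwd D s (i + g) (m * g) c) ^ 2 + g ^ m * (12 * (g * D) ^ 2))
        ≤ g * (g ^ m * (12 * m * (g * D) ^ 2) + g ^ m * (12 * (g * D) ^ 2)) :=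
          mul_le_mul_of_nonneg_left (by linarith) hg0
      _ = g ^ (m + 1) * (12 * ((m + 1 : ℕ) : ℤ) * (g * D) ^ 2) := by push_cast; ring

/-- Few samples are bad. -/
lemma sample_bad {D : ℤ} (hD : 0 ≤ D) {g : ℕ} (hg : 1 ≤ g) {s : ℕ → ℤ} (c : ℤ) (m : ℕ)
    {η : ℤ} (_hη : 0 < η) {e : ℝ} (he : 12 * (m:ℝ) * (g * D) ^ 2 ≤ e * (η : ℝ) ^ 2) (i : ℕ)
    :
    ∑ a : Fin m → Fin g, bad (|foldv (g * D) m (fun k => s (i + k * g + a k)) c -
      fwd D s i (m * g) c| ≤ η) ≤ e * (Fintype.card (Fin m → Fin g) : ℝ) := by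
  have hη' : (0:ℝ) < (η:ℝ) ^ 2 := by
    have : (0:ℝ) < η := by exact_mod_cast _hη
    positivity
  have h1 : ∀ a : Fin m → Fin g, bad (|foldv (g * D) m (fun k => s (i + k * g + a k)) c -
    fwd D s i (m * g) c| ≤ η) * (η:ℝ)^2 ≤
      (((foldv (g * D) m (fun k => s (i + k * g + a k)) c - fwd D s i (m * g) c) ^ 2 : ℤ) : ℝ) := by
    intro a
    set z := foldv (g * D) m (fun k => s (i + k * g + a k)) c - fwd D s i (m * g) c with hz
    by_cases h : |z| ≤ η
    · rw [bad_of h, zero_mul]; exact_mod_cast sq_nonneg z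
    · rw [bad_of_not h, one_mul]
      push Not at h
      have h2 : η ^ 2 ≤ z ^ 2 := by
        rw [← sq_abs z]
        exact pow_le_pow_left₀ _hη.le h.le 2
      exact_mod_cast h2
  have h2 := sample_sq hD hg (s := s) c m i
  have h3 : (∑ a : Fin m → Fin g, bad (|foldv (g * D) m (fun k => s (i + k * g + a k)) c -
    fwd D s i (m * g) c| ≤ η)) * (η:ℝ)^2 ≤ (g:ℝ) ^ m * (12 * m * (g * D) ^ 2) := by
    rw [Finset.sum_mul]
    refine le_trans (Finset.sum_le_sum fun a _ => h1 a) ?_
    exact_mod_cast h2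
  have h4 : (Fintype.card (Fin m → Fin g) : ℝ) = (g:ℝ) ^ m := by simp
  rw [h4]
  have h5 : (g:ℝ) ^ m * (12 * m * (g * D) ^ 2) ≤ (g:ℝ)^m * (e * (η:ℝ)^2) :=
    mul_le_mul_of_nonneg_left he (by positivity)
  have h6 : (∑ a : Fin m → Fin g, bad (|foldv (g * D) m (fun k => s (i + k * g + a k)) c -
    fwd D s i (m * g) c| ≤ η)) * (η:ℝ)^2 ≤ (e * (g:ℝ)^m) * (η:ℝ)^2 := by
    refine le_trans h3 (le_trans h5 (le_of_eq (by ring)))
  exact le_of_mul_le_mul_right h6 hη'

end H87AM
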