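import Pool.Agent.H87.AM.Gadget

/-!
# The upper bound `n ^ (1/2 + ε)`
-/

namespace H87AM

open Finset Filter

/-- Suitable parameters exist for every large base `b`. -/
lemma exists_par (u J : ℕ) : ∃ b₀ : ℕ, ∀ b : ℕ, b₀ ≤ b → J < b ∧ ∃ t, Par b u t := by
  -- real-variable estimate
  have hev : ∀ᶠ x : ℝ in atTop,
      20 * (16 + (u:ℝ) * (Real.log x / Real.log 2 + 1)) ^ 3 ≤ x := by
    set c : ℝ := 16 + u + u / Real.log 2 with hc
    have hlog2 : 0 < Real.log 2 := Real.log_pos (by norm_num)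
    have hc0 : 0 < c := by positivity
    have h1 : ∀ᶠ x : ℝ in atTop, ‖Real.log x ^ 3‖ ≤ (1 / (20 * c ^ 3)) * ‖id x‖ :=
      (Real.isLittleO_pow_log_id_atTop (n := 3)).bound (by positivity)
    filter_upwards [h1, eventually_ge_atTop (Real.exp 1)] with x hx hxe
    have hx0 : 0 < x := lt_of_lt_of_le (Real.exp_pos 1) hxe
    have hlog : 1 ≤ Real.log x := by
      rw [Real.le_log_iff_exp_le hx0]; exact hxe
    rw [Real.norm_of_nonneg (by positivity), id, Real.norm_of_nonneg hx0.le] at hx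
    have h2 : 16 + (u:ℝ) * (Real.log x / Real.log 2 + 1) ≤ c * Real.log x := by
      rw [hc]
      have e1 : (u:ℝ) * (Real.log x / Real.log 2) = u / Real.log 2 * Real.log x := by
        field_simp
      have e2 : (16:ℝ) ≤ 16 * Real.log x := by linarith
      have e3 : (u:ℝ) ≤ u * Real.log x := le_mul_of_one_le_right (by positivity) hlog
      calc 16 + (u:ℝ) * (Real.log x / Real.log 2 + 1)
          = 16 + u + u / Real.log 2 * Real.log x := by rw [mul_add, e1]; ring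
        _ ≤ 16 * Real.log x + u * Real.log x + u / Real.log 2 * Real.log x := by linarith
        _ = _ := by ring
    have h3 : 0 ≤ 16 + (u:ℝ) * (Real.log x / Real.log 2 + 1) := by positivity
    calc 20 * (16 + (u:ℝ) * (Real.log x / Real.log 2 + 1)) ^ 3
        ≤ 20 * (c * Real.log x) ^ 3 := by
          apply mul_le_mul_of_nonneg_left (pow_le_pow_left₀ h3 h2 3) (by norm_num)
      _ = (20 * c ^ 3) * Real.log x ^ 3 := by ring
      _ ≤ (20 * c ^ 3) * ((1 / (20 * c ^ 3)) * x) :=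
          mul_le_mul_of_nonneg_left hx (by positivity)
      _ = x := by field_simp
  obtain ⟨X, hX⟩ := eventually_atTop.1 hev
  refine ⟨max (J + 1) (max 1 ⌈X⌉₊), fun b hb => ⟨by have := le_max_left (J+1) (max 1 ⌈X⌉₊); omega, ?_⟩⟩
  have hb1 : 1 ≤ b := le_trans (le_trans (le_max_left _ _) (le_max_right _ _)) hb
  have hbX : X ≤ b := by
    have : ⌈X⌉₊ ≤ b := le_trans (le_trans (le_max_right _ _) (le_max_right _ _)) hb
    exact le_trans (Nat.le_ceil X) (by exact_mod_cast this)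
  have h1 := hX b hbX
  refine ⟨16 + u * (Nat.log 2 b + 1), ⟨by omega, ?_, ?_⟩⟩
  · have h2 : (Nat.log 2 b : ℝ) ≤ Real.log b / Real.log 2 := by
      have := Real.natLog_le_logb b 2
      rwa [Real.logb] at this
    have h3 : (16 + (u:ℝ) * ((Nat.log 2 b : ℝ) + 1)) ≤
        16 + (u:ℝ) * (Real.log b / Real.log 2 + 1) := by
      have : (u:ℝ) * ((Nat.log 2 b : ℝ) + 1) ≤ (u:ℝ) * (Real.log b / Real.log 2 + 1) :=
        mul_le_mul_of_nonneg_left (by linarith) (by positivity)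
      linarith
    have h4 : 20 * (16 + (u:ℝ) * ((Nat.log 2 b : ℝ) + 1)) ^ 3 ≤ b := by
      refine le_trans ?_ h1
      exact mul_le_mul_of_nonneg_left (pow_le_pow_left₀ (by positivity) h3 3) (by norm_num)
    exact_mod_cast h4
  · have h2 : b < 2 ^ (Nat.log 2 b + 1) := Nat.lt_pow_succ_log_self (by norm_num) b
    calc 64 * b ^ u ≤ 2 ^ 16 * (2 ^ (Nat.log 2 b + 1)) ^ u := by
          apply Nat.mul_le_mul (by norm_num)
          exact Nat.pow_le_pow_left h2.le _
      _ = 2 ^ (16 + u * (Nat.log 2 b + 1)) := by rw [← pow_mul, pow_add, mul_comm u]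

lemma cnt_maj_false {t : ℕ} (z : Fin t → Bool) : maj z = false ↔ t ≤ 2 * cnt false z := by
  have h := cnt_add z
  rw [Fintype.card_fin] at h
  unfold maj
  rw [decide_eq_false_iff_not]
  omega

lemma cnt_maj_true {t : ℕ} (z : Fin t → Bool) (hz : maj z = true) : t ≤ 2 * cnt true z := by
  unfold maj at hz
  rw [decide_eq_true_eq] at hz
  omega

/-- From a robust function on many variables to an admissible function. -/
lemma transfer {ι : Type} [Fintype ι] {Φ : (ι → Bool) → ℤ} {d t n : ℕ} {p : ℕ} {ρ β : ℝ}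
    (hC : Comp d (1/16) (fun y (v : Bool) => v = decide (Φ y ≤ 0)))
    (hR : Rob Φ p ρ β) (hp : 0 < p) (hβ : 0 < β)
    (a : ι → Fin t → Fin n)
    (ha : ∀ (c : Bool) (x : Fin n → Bool), 4 * cnt c x ≤ n →
      ((Finset.univ.filter (fun k => t ≤ 2 * cnt c (fun i => x (a k i)))).card : ℝ) ≤
        ρ * Fintype.card ι) :
    ∃ f : (Fin n → Bool) → ℝ, f ∈ Deg (Fin n) (d * t) ∧
      (∀ x, f x ∈ Set.Icc (-1:ℝ) (-(7/8)) ∪ Set.Icc (7/8) 1) ∧
      (∀ x, 4 * cnt false x ≤ n → 7/8 ≤ f x) ∧ (∀ x, 4 * cnt true x ≤ n → f x ≤ -(7/8)) := by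
  obtain ⟨P, hP, h0, h1, ht, hf⟩ := Comp.toPoly (F := fun y => decide (Φ y ≤ 0)) hC
  let y : (Fin n → Bool) → ι → Bool := fun x k => maj (fun i => x (a k i))
  have hydeg : ∀ k, (fun x => sg (y x k)) ∈ Deg (Fin n) t := by
    intro k
    have h := Deg.mem_card (ι := Fin t) (fun z => sg (maj z))
    rw [Fintype.card_fin] at h
    exact Deg.subst_mem h (a k)
  have hpR : (0:ℝ) < p := by exact_mod_cast hp
  have hbp : 0 < β * p := by positivity
  refine ⟨fun x => 1 - 2 * P (y x), ?_, ?_, ?_, ?_⟩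
  · exact Deg.sub_mem' (Deg.const_mem _ 1) (Deg.smul_mem' 2 (Deg.comp_mem hP y hydeg))
  · intro x
    by_cases h : Φ (y x) ≤ 0
    · left
      have := ht (y x) (by simpa using h)
      have := h1 (y x)
      constructor <;> linarith
    · right
      have := hf (y x) (by simpa using h)
      have := h0 (y x)
      constructor <;> linarith
  · intro x hx
    have hc : (cnt false (y x) : ℝ) ≤ ρ * Fintype.card ι := by
      refine le_trans (le_of_eq ?_) (ha false x hx)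
      unfold cnt
      congr 2
      ext k
      simp only [Finset.mem_filter, Finset.mem_univ, true_and]
      exact cnt_maj_false _
    have h2 := hR.hi (y x) hc
    have h3 : ¬ Φ (y x) ≤ 0 := by
      intro h
      have : (Φ (y x) : ℝ) ≤ 0 := by exact_mod_cast h
      linarith
    have := hf (y x) (by simpa using h3)
    show 7/8 ≤ 1 - 2 * P (y x)
    linarith
  · intro x hx
    have hc : (cnt true (y x) : ℝ) ≤ ρ * Fintype.card ι := by
      refine le_trans ?_ (ha true x hx)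
      have : (cnt true (y x)) ≤ (Finset.univ.filter (fun k => t ≤ 2 * cnt true (fun i => x (a k i)))).card := by
        unfold cnt
        apply Finset.card_le_card
        intro k
        simp only [Finset.mem_filter, Finset.mem_univ, true_and]
        exact fun h => cnt_maj_true _ h
      exact_mod_cast this
    have h2 := hR.lo (y x) hc
    have h3 : Φ (y x) ≤ 0 := by
      have : (Φ (y x) : ℝ) ≤ 0 := by linarith
      exact_mod_cast this
    have := ht (y x) (by simpa using h3)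
    show 1 - 2 * P (y x) ≤ -(7/8)
    linarith

/-- The upper bound. -/
theorem upper_bound {ε : ℝ} (hε : 0 < ε) : ∃ C : ℝ, 0 < C ∧ ∀ n : ℕ, 1 ≤ n →
    ∃ (d : ℕ) (f : (Fin n → Bool) → ℝ), (d:ℝ) ≤ C * (n:ℝ) ^ ((1:ℝ)/2 + ε) ∧ f ∈ Deg (Fin n) d ∧
      (∀ x, f x ∈ Set.Icc (-1:ℝ) (-(7/8)) ∪ Set.Icc (7/8) 1) ∧
      (∀ x, 4 * cnt false x ≤ n → 7/8 ≤ f x) ∧ (∀ x, 4 * cnt true x ≤ n → f x ≤ -(7/8)) := by
  -- choice of the number of levels
  obtain ⟨J, hJH, hJ2⟩ : ∃ J : ℕ, 5 / (2 * ε) ≤ ∑ j ∈ Finset.range J, (1 / ((j:ℝ) + 1)) ∧ 2 ≤ J := by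
    have h1 := Real.tendsto_sum_range_one_div_nat_succ_atTop
    have h2 := (h1.eventually_ge_atTop (5 / (2 * ε))).and (eventually_ge_atTop 2)
    obtain ⟨J, hJ⟩ := h2.exists
    exact ⟨J, hJ.1, hJ.2⟩
  set u := 8 * (J * J.factorial) with hu
  set v : ℕ → ℕ := fun j => J * (J.factorial / (j + 1)) with hv
  have hfac2 : 2 ≤ J.factorial := by
    calc 2 = (2:ℕ).factorial := rfl
      _ ≤ J.factorial := Nat.factorial_le hJ2
  have hvj : ∀ j < J, (j + 1) * v j = J * J.factorial := by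
    intro j hj
    have hdvd : (j + 1) ∣ J.factorial := Nat.dvd_factorial (by omega) (by omega)
    rw [hv]
    show (j + 1) * (J * (J.factorial / (j + 1))) = _
    rw [← mul_assoc, mul_comm (j + 1) J, mul_assoc, Nat.mul_div_cancel' hdvd]
  have hvle : ∀ j < J, v j ≤ J * J.factorial := by
    intro j hj
    rw [← hvj j hj]
    exact Nat.le_mul_of_pos_left _ (by omega)
  have hJJ : 2 * J ≤ J * J.factorial := by
    rw [mul_comm]; exact Nat.mul_le_mul_left _ hfac2
  have hv1 : ∀ j < J, 4 * v j + 3 ≤ u := by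
    intro j hj
    have := hvle j hj
    omega
  have hv2 : ∀ j < J, v j + (4 * v j + 4) * (j + 1) ≤ u := by
    intro j hj
    have h1 := hvle j hj
    have h2 := hvj j hj
    have h3 : (4 * v j + 4) * (j + 1) = 4 * ((j + 1) * v j) + 4 * (j + 1) := by ring
    rw [h3, h2]
    omega
  obtain ⟨b₀, hb₀⟩ := exists_par u J
  set V := ∑ j ∈ Finset.range J, v j with hV
  set E := u + 2 * V with hE
  set A := u + ∑ j ∈ Finset.range J, (v j + 1) with hA
  have hAV : A = u + V + J := by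
    rw [hA, hV, Finset.sum_add_distrib]; simp [add_assoc]
  have hE0 : 0 < E := by omega
  have hVreal : (V:ℝ) = (u:ℝ) / 8 * ∑ j ∈ Finset.range J, (1 / ((j:ℝ) + 1)) := by
    rw [hV, Finset.mul_sum]
    push_cast
    apply Finset.sum_congr rfl
    intro j hj
    rw [Finset.mem_range] at hj
    have h1 := hvj j hj
    have h2 : ((j:ℝ) + 1) * (v j : ℝ) = J * J.factorial := by exact_mod_cast h1
    have h3 : (u:ℝ) = 8 * (J * J.factorial) := by rw [hu]; push_cast; ring
    rw [h3, ← h2]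
    field_simp
  have hexp : (A:ℝ) / E ≤ 1/2 + ε := by
    rw [div_le_iff₀ (by exact_mod_cast hE0)]
    have h1 : (A:ℝ) = u + V + J := by exact_mod_cast hAV
    have h2 : (E:ℝ) = u + 2 * V := by rw [hE]; push_cast; ring
    have h3 : (J:ℝ) ≤ u / 8 := by
      have : J ≤ J * J.factorial := Nat.le_mul_of_pos_right _ (Nat.factorial_pos J)
      have h4 : (u:ℝ) = 8 * (J * J.factorial) := by rw [hu]; push_cast; ring
      rw [h4]
      have : (J:ℝ) ≤ J * J.factorial := by exact_mod_cast this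
      linarith
    have h5 : (5:ℝ) / 8 * u ≤ 2 * ε * V := by
      rw [hVreal]
      have h6 : (5:ℝ) / 8 * u = 2 * ε * (u / 8 * (5 / (2 * ε))) := by field_simp
      rw [h6]
      apply mul_le_mul_of_nonneg_left _ (by positivity)
      apply mul_le_mul_of_nonneg_left hJH (by positivity)
    rw [h1, h2]
    have h7 : 0 ≤ ε * u := by positivity
    nlinarith
  -- gadgets
  set ρ : ℝ := (1/8) / (8 * (J:ℝ)) ^ J with hρ
  have hJ0 : (0:ℝ) < J := by exact_mod_cast (by omega : 0 < J)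
  have hρ0 : 0 < ρ := by positivity
  obtain ⟨t₀, ht₀⟩ := exists_assignment hρ0
  refine ⟨((b₀:ℝ) + 2) ^ A * t₀ + 1, by positivity, fun n hn => ?_⟩
  have hnR : (1:ℝ) ≤ n := by exact_mod_cast hn
  set b := max b₀ ⌈(n:ℝ) ^ ((1:ℝ) / E)⌉₊ with hb
  obtain ⟨hJb, t, hpar⟩ := hb₀ b (le_max_left _ _)
  obtain ⟨ι, hι, Φ, hcard, hL, hR⟩ := construction hpar (by omega) hJb v hv1 hv2 J le_rfl
  have hbE : n ≤ b ^ E := by
    have h1 : (n:ℝ) ^ ((1:ℝ)/E) ≤ b := by
      refine le_trans (Nat.le_ceil _) ?_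
      exact_mod_cast le_max_right _ _
    have h2 : ((n:ℝ) ^ ((1:ℝ)/E)) ^ E ≤ (b:ℝ) ^ E := pow_le_pow_left₀ (by positivity) h1 E
    rw [← Real.rpow_natCast, ← Real.rpow_mul (by positivity), one_div,
      inv_mul_cancel₀ (by exact_mod_cast hE0.ne'), Real.rpow_one] at h2
    exact_mod_cast h2
  have hcard' : Fintype.card ι = b ^ E := hcard
  obtain ⟨a, ha⟩ := ht₀ n (b ^ E) hn hbE
  let e : ι ≃ Fin (b ^ E) := Fintype.equivFinOfCardEq hcard'
  have hβ : (0:ℝ) < 3/4 - J * (1 / (8 * (J:ℝ))) := by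
    have : (J:ℝ) * (1 / (8 * (J:ℝ))) = 1/8 := by field_simp
    rw [this]; norm_num
  have hbpos := hpar.b_pos
  obtain ⟨f, hf1, hf2, hf3, hf4⟩ := transfer (hL.exact 0) hR (by positivity) hβ
    (fun k => a (e k)) (by
      intro c x hx
      refine le_trans (le_of_eq ?_) (le_trans (ha c x hx) (le_of_eq ?_))
      · congr 1
        apply Finset.card_bij (fun k _ => e k)
        · intro k hk; simpa using hk
        · intro k _ k' _ h; exact e.injective h
        · intro k hk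
          exact ⟨e.symm k, by simpa using hk, by simp⟩
      · rw [hcard'])
  refine ⟨_, f, ?_, hf1, hf2, hf3, hf4⟩
  push_cast
  have hbn : (b:ℝ) ≤ ((b₀:ℝ) + 2) * (n:ℝ) ^ ((1:ℝ)/E) := by
    have h1 : (1:ℝ) ≤ (n:ℝ) ^ ((1:ℝ)/E) := Real.one_le_rpow hnR (by positivity)
    have h2 : (b:ℝ) ≤ b₀ + ((n:ℝ) ^ ((1:ℝ)/E) + 1) := by
      rw [hb]
      push_cast
      apply max_le
      · have : (0:ℝ) ≤ (n:ℝ) ^ ((1:ℝ)/E) := by positivity
        linarith
      · have := Nat.ceil_lt_add_one (show (0:ℝ) ≤ (n:ℝ) ^ ((1:ℝ)/E) by positivity)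
        have h0 : (0:ℝ) ≤ b₀ := by positivity
        linarith
    have h0 : (0:ℝ) ≤ b₀ := by positivity
    nlinarith
  have hbA : (b:ℝ) ^ A ≤ ((b₀:ℝ) + 2) ^ A * (n:ℝ) ^ ((1:ℝ)/2 + ε) := by
    calc (b:ℝ) ^ A ≤ (((b₀:ℝ) + 2) * (n:ℝ) ^ ((1:ℝ)/E)) ^ A :=
          pow_le_pow_left₀ (by positivity) hbn A
      _ = ((b₀:ℝ) + 2) ^ A * (n:ℝ) ^ ((A:ℝ)/E) := by
          rw [mul_pow, ← Real.rpow_natCast ((n:ℝ) ^ ((1:ℝ)/E)), ← Real.rpow_mul (by positivity)]
          congr 2; ring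
      _ ≤ _ := by
          apply mul_le_mul_of_nonneg_left _ (by positivity)
          exact Real.rpow_le_rpow_of_exponent_le hnR hexp
  have hnn : (0:ℝ) ≤ (n:ℝ) ^ ((1:ℝ)/2 + ε) := by positivity
  calc (b:ℝ) ^ A * t₀ ≤ (((b₀:ℝ) + 2) ^ A * (n:ℝ) ^ ((1:ℝ)/2 + ε)) * t₀ :=
        mul_le_mul_of_nonneg_right hbA (by positivity)
    _ = (((b₀:ℝ) + 2) ^ A * t₀) * (n:ℝ) ^ ((1:ℝ)/2 + ε) := by ring
    _ ≤ (((b₀:ℝ) + 2) ^ A * t₀ + 1) * (n:ℝ) ^ ((1:ℝ)/2 + ε) := by
        apply mul_le_mul_of_nonneg_right _ hnn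
        linarith

end H87AM
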